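import Pool.Agent.Lib.H94M.TS
import Pool.Agent.Lib.H53M.Q5

/-!
# H22Z: the zero estimate of Theorem D (part Z), definitions and first lemmas

`p` a prime, `M` an `H94M.MFam` (modular forms mod `p`), `h, G : Fin r → 𝔽_p[[q]]` with
`h_s = b h_s^p + G_s`, `G_s ∈ M κ`, `b ≠ 0`. Exponents `α : Fin r → Fin p`.
-/

namespace H22Z

open PowerSeries H94M H53M

variable {p : ℕ} [Fact p.Prime] {r : ℕ}

/-- The total degree of an exponent. -/
def deg (α : Fin r → Fin p) : ℕ := ∑ s, (α s : ℕ)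

/-- The monomial `h^α`. -/
noncomputable def mon (h : Fin r → PowerSeries (ZMod p)) (α : Fin r → Fin p) :
    PowerSeries (ZMod p) := ∏ s, h s ^ (α s : ℕ)

/-- A pure (isobaric) family of coefficients: `m_α` has weight `W + (r p - |α|) κ`. -/
def Pure (M : ℕ → Submodule (ZMod p) (PowerSeries (ZMod p))) (κ W : ℕ)
    (m : (Fin r → Fin p) → PowerSeries (ZMod p)) : Prop :=
  ∀ α, m α ∈ M (W + (r * p - deg α) * κ)

/-- The monomials `h^α` are linearly independent over the modular forms modulo `p` (pure relations). -/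
def Indep (M : ℕ → Submodule (ZMod p) (PowerSeries (ZMod p))) (κ : ℕ)
    (h : Fin r → PowerSeries (ZMod p)) : Prop :=
  ∀ (W : ℕ) (m : (Fin r → Fin p) → PowerSeries (ZMod p)), Pure M κ W m →
    ∑ α, m α * mon h α = 0 → ∀ α, m α = 0

/-- The Artin-Schreier equations. -/
structure AS (M : ℕ → Submodule (ZMod p) (PowerSeries (ZMod p))) (κ : ℕ) (b : ZMod p)
    (h G : Fin r → PowerSeries (ZMod p)) : Prop where
  b_ne : b ≠ 0
  mem : ∀ s, G s ∈ M κ
  eq : ∀ s, h s = C b * h s ^ p + G s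

theorem deg_le (α : Fin r → Fin p) : deg α ≤ r * p := by
  unfold deg
  calc ∑ s, (α s : ℕ) ≤ ∑ _s : Fin r, p := Finset.sum_le_sum fun s _ => (α s).isLt.le
    _ = r * p := by simp

/-- `1` has weight `(p-1) t`. -/
theorem one_mem_mul {μ s : ℕ} {M : ℕ → Submodule (ZMod p) (PowerSeries (ZMod p))}
    (hp : 3 < p) (hM : MFam p μ s M) (t : ℕ) : (1 : PowerSeries (ZMod p)) ∈ M ((p - 1) * t) := by
  have h1 : (1 : PowerSeries (ZMod p)) ∈ M (p - 1) := hM.le _ (H53M.one_mem p hp)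
  have h2 := hM.pow h1 t
  rw [one_pow, mul_comm] at h2
  exact h2

/-- Multiplication by `E_(p-1)^t = 1`. -/
theorem fill {μ s : ℕ} {M : ℕ → Submodule (ZMod p) (PowerSeries (ZMod p))}
    (hp : 3 < p) (hM : MFam p μ s M) {w w' : ℕ} {f : PowerSeries (ZMod p)} (hf : f ∈ M w)
    (t : ℕ) (hw : w' = w + (p - 1) * t) : f ∈ M w' := by
  have h2 := hM.mul _ _ _ _ hf (one_mem_mul hp hM t)
  rw [mul_one] at h2
  rw [hw]
  exact h2

/-- Constants have weight `0`. -/
theorem const_mem {μ s : ℕ} {M : ℕ → Submodule (ZMod p) (PowerSeries (ZMod p))}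
    (hM : MFam p μ s M) (c : ZMod p) : (C c : PowerSeries (ZMod p)) ∈ M 0 := by
  have h1 : (1 : PowerSeries (ZMod p)) ∈ M 0 := hM.le _ (one_mem_MP_zero p)
  have h2 := (M 0).smul_mem c h1
  have h3 : c • (1 : PowerSeries (ZMod p)) = C c := by
    rw [smul_eq_C_mul, mul_one]
  rwa [h3] at h2

theorem C_mul_mem {μ s : ℕ} {M : ℕ → Submodule (ZMod p) (PowerSeries (ZMod p))}
    (_hM : MFam p μ s M) (c : ZMod p) {w : ℕ} {f : PowerSeries (ZMod p)} (hf : f ∈ M w) :
    C c * f ∈ M w := by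
  have h2 := (M w).smul_mem c hf
  rwa [smul_eq_C_mul] at h2

/-- `h_s^p = b⁻¹ (h_s - G_s)`. -/
theorem AS.pow_eq {M : ℕ → Submodule (ZMod p) (PowerSeries (ZMod p))} {κ : ℕ} {b : ZMod p}
    {h G : Fin r → PowerSeries (ZMod p)} (hA : AS M κ b h G) (s : Fin r) :
    h s ^ p = C b⁻¹ * (h s - G s) := by
  have h1 : h s - G s = C b * h s ^ p := by
    nth_rw 1 [hA.eq s]
    ring
  rw [h1, ← mul_assoc, ← map_mul, inv_mul_cancel₀ hA.b_ne, map_one, one_mul]

/-- Binomial theorem for exponents below `p`. -/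
theorem add_pow_fin (x y : PowerSeries (ZMod p)) (n : Fin p) :
    (x + y) ^ (n : ℕ) = ∑ j : Fin p, ((n : ℕ).choose j : PowerSeries (ZMod p)) * x ^ (j : ℕ) *
      y ^ ((n : ℕ) - j) := by
  rw [Fin.sum_univ_eq_sum_range (fun j => ((n : ℕ).choose j : PowerSeries (ZMod p)) * x ^ j *
      y ^ ((n : ℕ) - j)) p, add_pow]
  have h1 : Finset.range ((n : ℕ) + 1) ⊆ Finset.range p :=
    Finset.range_subset_range.2 n.isLt
  rw [← Finset.sum_subset h1]
  · refine Finset.sum_congr rfl fun j _ => ?_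
    ring
  · intro j _ hj
    rw [Finset.mem_range, not_lt] at hj
    rw [Nat.choose_eq_zero_of_lt (by omega)]
    simp

end H22Z
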