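import Pool.Agent.Lib.H22Z.Z0

/-!
# H22Z, Z1: the dichotomy (a minimal relation between the monomials)
-/

namespace H22Z

open PowerSeries H94M

variable {p : ℕ} [Fact p.Prime] {r : ℕ}

/-- The coefficient of `h^γ` in `(h^α)^p`. -/
noncomputable def cf (b : ZMod p) (G : Fin r → PowerSeries (ZMod p)) (α γ : Fin r → Fin p) :
    PowerSeries (ZMod p) :=
  ∏ s, (C (b⁻¹ ^ (α s : ℕ)) * ((α s : ℕ).choose (γ s) : PowerSeries (ZMod p)) *
    (-G s) ^ ((α s : ℕ) - (γ s : ℕ)))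

theorem mon_pow {M : ℕ → Submodule (ZMod p) (PowerSeries (ZMod p))} {κ : ℕ} {b : ZMod p}
    {h G : Fin r → PowerSeries (ZMod p)} (hA : AS M κ b h G) (α : Fin r → Fin p) :
    mon h α ^ p = ∑ γ, cf b G α γ * mon h γ := by
  have h1 : mon h α ^ p = ∏ s, ∑ j : Fin p, (C (b⁻¹ ^ (α s : ℕ)) *
      ((α s : ℕ).choose (j : ℕ) : PowerSeries (ZMod p)) * (-G s) ^ ((α s : ℕ) - (j : ℕ))) *
        h s ^ (j : ℕ) := by
    unfold mon
    rw [← Finset.prod_pow]
    refine Finset.prod_congr rfl fun s _ => ?_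
    rw [← pow_mul, mul_comm, pow_mul, hA.pow_eq s, mul_pow, sub_eq_add_neg,
      add_pow_fin (h s) (-G s) (α s), Finset.mul_sum, ← map_pow]
    refine Finset.sum_congr rfl fun j _ => ?_
    ring
  rw [h1, Finset.prod_univ_sum, Fintype.piFinset_univ]
  refine Finset.sum_congr rfl fun γ _ => ?_
  unfold cf mon
  rw [← Finset.prod_mul_distrib]

theorem cf_le {b : ZMod p} {G : Fin r → PowerSeries (ZMod p)} {α γ : Fin r → Fin p}
    (h : cf b G α γ ≠ 0) (s : Fin r) : (γ s : ℕ) ≤ α s := by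
  by_contra hc
  apply h
  unfold cf
  refine Finset.prod_eq_zero (Finset.mem_univ s) ?_
  rw [Nat.choose_eq_zero_of_lt (by omega)]
  simp

theorem deg_mono {α γ : Fin r → Fin p} (h : ∀ s, (γ s : ℕ) ≤ α s) : deg γ ≤ deg α :=
  Finset.sum_le_sum fun s _ => h s

theorem eq_of_deg {α γ : Fin r → Fin p} (h : ∀ s, (γ s : ℕ) ≤ α s) (hd : deg α ≤ deg γ) :
    α = γ := by
  have h1 : deg γ = deg α := le_antisymm (deg_mono h) hd
  have h2 := (Finset.sum_eq_sum_iff_of_le (fun s _ => h s)).1 h1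
  funext s
  exact Fin.ext (h2 s (Finset.mem_univ s)).symm

theorem cf_mem {μ s₀ : ℕ} {M : ℕ → Submodule (ZMod p) (PowerSeries (ZMod p))}
    (hM : MFam p μ s₀ M) {κ : ℕ} {b : ZMod p} {h G : Fin r → PowerSeries (ZMod p)}
    (hA : AS M κ b h G) (α γ : Fin r → Fin p) : cf b G α γ ∈ M ((deg α - deg γ) * κ) := by
  by_cases h0 : cf b G α γ = 0
  · rw [h0]
    exact zero_mem _
  have hle := cf_le h0
  have h1 : ∀ S : Finset (Fin r), ∏ s ∈ S, (C (b⁻¹ ^ (α s : ℕ)) *
      ((α s : ℕ).choose (γ s) : PowerSeries (ZMod p)) * (-G s) ^ ((α s : ℕ) - (γ s : ℕ))) ∈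
        M (∑ s ∈ S, ((α s : ℕ) - (γ s : ℕ)) * κ) := by
    intro S
    induction S using Finset.induction_on with
    | empty =>
      simp only [Finset.prod_empty, Finset.sum_empty]
      have h2 := const_mem hM (1 : ZMod p)
      rwa [map_one] at h2
    | insert s S hs ih =>
      rw [Finset.prod_insert hs, Finset.sum_insert hs]
      refine hM.mul _ _ _ _ ?_ ih
      have e1 : C (b⁻¹ ^ (α s : ℕ)) * ((α s : ℕ).choose (γ s) : PowerSeries (ZMod p)) *
          (-G s) ^ ((α s : ℕ) - (γ s : ℕ)) =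
          C (b⁻¹ ^ (α s : ℕ) * (((α s : ℕ).choose (γ s) : ℕ) : ZMod p)) *
            (-G s) ^ ((α s : ℕ) - (γ s : ℕ)) := by
        rw [map_mul, map_natCast]
      rw [e1]
      exact C_mul_mem hM _ (hM.pow ((M κ).neg_mem (hA.mem s)) _)
  have h2 := h1 Finset.univ
  have e2 : ∑ s, ((α s : ℕ) - (γ s : ℕ)) * κ = (deg α - deg γ) * κ := by
    rw [← Finset.sum_mul]
    congr 1
    unfold deg
    rw [← Finset.sum_tsub_distrib _ (fun s _ => hle s)]
  rw [e2] at h2
  exact h2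

theorem cf_self (b : ZMod p) (G : Fin r → PowerSeries (ZMod p)) (α : Fin r → Fin p) :
    cf b G α α = C (b⁻¹ ^ deg α) := by
  unfold cf deg
  rw [← Finset.prod_pow_eq_pow_sum, map_prod]
  refine Finset.prod_congr rfl fun s _ => ?_
  simp

/-- The exponent `γ + e_s` (`γ` itself if `γ_s = p - 1`). -/
def up (γ : Fin r → Fin p) (s : Fin r) : Fin r → Fin p :=
  if hs : (γ s : ℕ) + 1 < p then Function.update γ s ⟨(γ s : ℕ) + 1, hs⟩ else γ

theorem up_apply_self {γ : Fin r → Fin p} {s : Fin r} (hs : (γ s : ℕ) + 1 < p) :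
    (up γ s s : ℕ) = γ s + 1 := by
  unfold up
  rw [dif_pos hs, Function.update_self]

theorem up_apply_ne {γ : Fin r → Fin p} {s t : Fin r} (ht : t ≠ s) : up γ s t = γ t := by
  unfold up
  split_ifs
  · rw [Function.update_of_ne ht]
  · rfl

theorem cf_up (b : ZMod p) (G : Fin r → PowerSeries (ZMod p)) {γ : Fin r → Fin p} {s : Fin r}
    (hs : (γ s : ℕ) + 1 < p) :
    cf b G (up γ s) γ = C (b⁻¹ ^ (deg γ + 1)) * (((γ s : ℕ) + 1 : ℕ) : PowerSeries (ZMod p)) *
      (-G s) := by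
  unfold cf
  rw [← Finset.mul_prod_erase _ _ (Finset.mem_univ s)]
  have h1 : ∏ t ∈ Finset.univ.erase s, (C (b⁻¹ ^ (up γ s t : ℕ)) *
      ((up γ s t : ℕ).choose (γ t) : PowerSeries (ZMod p)) *
        (-G t) ^ ((up γ s t : ℕ) - (γ t : ℕ))) =
      ∏ t ∈ Finset.univ.erase s, C (b⁻¹ ^ (γ t : ℕ)) := by
    refine Finset.prod_congr rfl fun t ht => ?_
    rw [up_apply_ne (Finset.ne_of_mem_erase ht)]
    simp
  rw [h1, up_apply_self hs, Nat.add_sub_cancel_left, pow_one, Nat.choose_succ_self_right]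
  have h2 : ∏ t ∈ Finset.univ.erase s, (C (b⁻¹ ^ (γ t : ℕ)) : PowerSeries (ZMod p)) =
      C (b⁻¹ ^ (∑ t ∈ Finset.univ.erase s, (γ t : ℕ))) := by
    rw [← Finset.prod_pow_eq_pow_sum, map_prod]
  rw [h2]
  have h3 : deg γ = γ s + ∑ t ∈ Finset.univ.erase s, (γ t : ℕ) := by
    unfold deg
    rw [← Finset.add_sum_erase _ _ (Finset.mem_univ s)]
  have h4 : deg γ + 1 = (γ s + 1) + ∑ t ∈ Finset.univ.erase s, (γ t : ℕ) := by omega
  rw [h4, pow_add b⁻¹ ((γ s : ℕ) + 1) (∑ t ∈ Finset.univ.erase s, (γ t : ℕ)), map_mul]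
  ring

theorem deg_up {γ : Fin r → Fin p} {s : Fin r} (hs : (γ s : ℕ) + 1 < p) :
    deg (up γ s) = deg γ + 1 := by
  unfold deg
  rw [← Finset.add_sum_erase _ _ (Finset.mem_univ s), up_apply_self hs,
    ← Finset.add_sum_erase Finset.univ (fun t => (γ t : ℕ)) (Finset.mem_univ s)]
  have h1 : ∑ t ∈ Finset.univ.erase s, (up γ s t : ℕ) = ∑ t ∈ Finset.univ.erase s, (γ t : ℕ) :=
    Finset.sum_congr rfl fun t ht => by rw [up_apply_ne (Finset.ne_of_mem_erase ht)]
  rw [h1]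
  omega

theorem exists_up {α γ : Fin r → Fin p} (h : ∀ s, (γ s : ℕ) ≤ α s) (hd : deg α = deg γ + 1) :
    ∃ s, (γ s : ℕ) + 1 < p ∧ up γ s = α := by
  have h1 : ∃ s, (γ s : ℕ) < α s := by
    by_contra hc
    push Not at hc
    have h2 : deg α ≤ deg γ := deg_mono hc
    omega
  obtain ⟨s, hs⟩ := h1
  have h2 : (γ s : ℕ) + 1 < p := lt_of_le_of_lt hs (α s).isLt
  refine ⟨s, h2, ?_⟩
  symm
  apply eq_of_deg
  · intro t
    by_cases ht : t = s
    · rw [ht, up_apply_self h2]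
      exact hs
    · rw [up_apply_ne ht]
      exact h t
  · rw [deg_up h2, hd]

theorem up_injective {γ : Fin r → Fin p} {s t : Fin r} (hs : (γ s : ℕ) + 1 < p)
    (h : up γ s = up γ t) : s = t := by
  by_contra hc
  have h1 := congrFun h s
  rw [up_apply_ne hc] at h1
  have h2 := up_apply_self hs
  rw [h1] at h2
  omega

/-- The field of constants. -/
theorem const_of_pow {v θ : PowerSeries (ZMod p)} (hv : v ≠ 0) (h : v ^ (p - 1) * θ = θ ^ p) :
    ∃ t : ZMod p, θ = C t * v := by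
  let K := FractionRing (PowerSeries (ZMod p))
  have hinj : Function.Injective (algebraMap (PowerSeries (ZMod p)) K) :=
    IsFractionRing.injective _ _
  have hchar : CharP (PowerSeries (ZMod p)) p := by
    refine charP_of_injective_ringHom (f := (C : ZMod p →+* PowerSeries (ZMod p))) ?_ p
    exact C_injective
  have hcharK : CharP K p := charP_of_injective_algebraMap hinj p
  have hv' : algebraMap (PowerSeries (ZMod p)) K v ≠ 0 := fun h0 =>
    hv (hinj (by rw [h0, map_zero]))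
  obtain ⟨x, hx⟩ : ∃ x : K, x = algebraMap _ K θ / algebraMap _ K v := ⟨_, rfl⟩
  have hp1 : 1 ≤ p := (Fact.out : p.Prime).one_lt.le
  have h1 : x ^ p = x := by
    rw [hx, div_pow, ← map_pow, ← h, map_mul, map_pow]
    have e : algebraMap (PowerSeries (ZMod p)) K v ^ p =
        algebraMap _ K v ^ (p - 1) * algebraMap _ K v := by
      rw [← pow_succ]
      congr 1
      omega
    rw [e, mul_div_mul_left _ _ (pow_ne_zero _ hv')]
  have h2 : x ∈ (⊥ : Subfield K) := (Subfield.mem_bot_iff_pow_eq_self K p).2 h1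
  rw [← ZMod.fieldRange_castHom_eq_bot p] at h2
  obtain ⟨t, ht⟩ := h2
  refine ⟨t, hinj ?_⟩
  have h3 : algebraMap (PowerSeries (ZMod p)) K (C t) = x := by
    rw [← ht]
    have h4 : ((algebraMap (PowerSeries (ZMod p)) K).comp (C : ZMod p →+* PowerSeries (ZMod p))) =
        ZMod.castHom (dvd_refl p) K := RingHom.ext_zmod _ _
    exact congrArg (fun f : ZMod p →+* K => f t) h4
  rw [map_mul, h3, hx, div_mul_cancel₀ _ hv']

end H22Z
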