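import Pool.Agent.Lib.H22Z.Z1

/-!
# H22Z, Z1B: the dichotomy

If the monomials are dependent (pure relations) then some nonzero `𝔽_p`-combination `c.h`, minus a
constant, is a quotient of two modular forms modulo `p`.
-/

namespace H22Z

open PowerSeries H94M

variable {p : ℕ} [Fact p.Prime] {r : ℕ}

/-- The measure of a relation. -/
noncomputable def meas (m : (Fin r → Fin p) → PowerSeries (ZMod p)) : ℕ :=
  open Classical in
  ∑ α ∈ Finset.univ.filter (fun α => m α ≠ 0), (Fintype.card (Fin r → Fin p) + 1) ^ deg α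

/-- The smaller relation. -/
noncomputable def nxt (b : ZMod p) (G : Fin r → PowerSeries (ZMod p)) (β : Fin r → Fin p)
    (m : (Fin r → Fin p) → PowerSeries (ZMod p)) (γ : Fin r → Fin p) : PowerSeries (ZMod p) :=
  C (b⁻¹ ^ deg β) * m β ^ (p - 1) * m γ - ∑ α, m α ^ p * cf b G α γ

theorem nxt_rel {M : ℕ → Submodule (ZMod p) (PowerSeries (ZMod p))} {κ : ℕ} {b : ZMod p}
    {h G : Fin r → PowerSeries (ZMod p)} (hA : AS M κ b h G) (β : Fin r → Fin p)
    {m : (Fin r → Fin p) → PowerSeries (ZMod p)} (hrel : ∑ α, m α * mon h α = 0) :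
    ∑ γ, nxt b G β m γ * mon h γ = 0 := by
  have hchar : CharP (PowerSeries (ZMod p)) p :=
    charP_of_injective_ringHom (f := (C : ZMod p →+* PowerSeries (ZMod p))) C_injective p
  have h1 : ∑ α, m α ^ p * mon h α ^ p = 0 := by
    have h2 : (∑ α, m α * mon h α) ^ p = 0 := by
      rw [hrel, zero_pow (Fact.out : p.Prime).ne_zero]
    rw [sum_pow_char] at h2
    rw [← h2]
    exact Finset.sum_congr rfl fun α _ => (mul_pow _ _ _).symm
  have h2 : ∑ γ, (∑ α, m α ^ p * cf b G α γ) * mon h γ = 0 := by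
    rw [← h1]
    simp only [Finset.sum_mul, mon_pow hA, Finset.mul_sum]
    rw [Finset.sum_comm]
    refine Finset.sum_congr rfl fun α _ => Finset.sum_congr rfl fun γ _ => ?_
    ring
  unfold nxt
  simp only [sub_mul, Finset.sum_sub_distrib]
  rw [h2, sub_zero]
  have h3 : ∑ γ, C (b⁻¹ ^ deg β) * m β ^ (p - 1) * m γ * mon h γ =
      C (b⁻¹ ^ deg β) * m β ^ (p - 1) * ∑ γ, m γ * mon h γ := by
    rw [Finset.mul_sum]
    exact Finset.sum_congr rfl fun γ _ => by ring
  rw [h3, hrel, mul_zero]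

theorem nxt_pure {μ s₀ : ℕ} {M : ℕ → Submodule (ZMod p) (PowerSeries (ZMod p))} (hp : 3 < p)
    (hM : MFam p μ s₀ M) {κ : ℕ} {b : ZMod p} {h G : Fin r → PowerSeries (ZMod p)}
    (hA : AS M κ b h G) (β : Fin r → Fin p) {W : ℕ}
    {m : (Fin r → Fin p) → PowerSeries (ZMod p)} (hm : Pure M κ W m) :
    Pure M κ (p * W + (p - 1) * (r * p) * κ) (nxt b G β m) := by
  have hp1 : 1 ≤ p := by omega
  obtain ⟨q, rfl⟩ : ∃ q, p = q + 1 := ⟨p - 1, by omega⟩
  have hq : q + 1 - 1 = q := by omega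
  intro γ
  unfold nxt
  refine (M _).sub_mem ?_ ((M _).sum_mem fun α _ => ?_)
  · have h1 := hM.mul _ _ _ _ (C_mul_mem hM (b⁻¹ ^ deg β) (hM.pow (hm β) (q + 1 - 1))) (hm γ)
    refine fill hp hM h1 (deg β * κ) ?_
    rw [hq]
    have hβ := deg_le β
    have hγ := deg_le γ
    obtain ⟨x, hx⟩ : ∃ x, r * (q + 1) = deg β + x := ⟨r * (q + 1) - deg β, by omega⟩
    have e1 : r * (q + 1) - deg β = x := by omega
    rw [e1]
    obtain ⟨y, hy⟩ : ∃ y, r * (q + 1) - deg γ = y := ⟨_, rfl⟩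
    rw [hy]
    have e2 : r * (q + 1) = deg β + x := hx
    rw [e2]
    ring
  · by_cases h0 : cf b G α γ = 0
    · rw [h0, mul_zero]
      exact zero_mem _
    have hle := deg_mono (cf_le h0)
    have h1 := hM.mul _ _ _ _ (hM.pow (hm α) (q + 1)) (cf_mem hM hA α γ)
    refine fill hp hM h1 (deg α * κ) ?_
    rw [hq]
    have hα := deg_le α
    obtain ⟨x, hx⟩ : ∃ x, r * (q + 1) = deg α + x := ⟨r * (q + 1) - deg α, by omega⟩
    obtain ⟨y, hy⟩ : ∃ y, deg α = deg γ + y := ⟨deg α - deg γ, by omega⟩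
    have e1 : r * (q + 1) - deg α = x := by omega
    have e2 : deg α - deg γ = y := by omega
    have e3 : r * (q + 1) - deg γ = x + y := by omega
    rw [e1, e2, e3]
    have e4 : r * (q + 1) = deg α + x := hx
    rw [e4]
    have e5 : (deg α + x) = (deg γ + y + x) := by omega
    rw [hy]
    ring

theorem nxt_top {b : ZMod p} {G : Fin r → PowerSeries (ZMod p)} {β : Fin r → Fin p}
    {m : (Fin r → Fin p) → PowerSeries (ZMod p)} (hD : ∀ α, m α ≠ 0 → deg α ≤ deg β)
    {γ : Fin r → Fin p} (hγ : deg β ≤ deg γ) :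
    nxt b G β m γ = C (b⁻¹ ^ deg β) * (m β ^ (p - 1) * m γ) - C (b⁻¹ ^ deg γ) * m γ ^ p := by
  unfold nxt
  rw [Finset.sum_eq_single γ]
  · rw [cf_self]
    ring
  · intro α _ hα
    by_cases h0 : cf b G α γ = 0
    · rw [h0, mul_zero]
    have h1 : m α = 0 := by
      by_contra hc
      exact hα (eq_of_deg (cf_le h0) ((hD α hc).trans hγ))
    rw [h1, zero_pow (Fact.out : p.Prime).ne_zero, zero_mul]
  · intro h
    exact absurd (Finset.mem_univ γ) h

theorem nxt_meas {b : ZMod p} {G : Fin r → PowerSeries (ZMod p)} {β : Fin r → Fin p}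
    {m : (Fin r → Fin p) → PowerSeries (ZMod p)} (hβ : m β ≠ 0) (hβ1 : 1 ≤ deg β)
    (hD : ∀ α, m α ≠ 0 → deg α ≤ deg β) : meas (nxt b G β m) < meas m := by
  classical
  obtain ⟨B, hB⟩ : ∃ B, Fintype.card (Fin r → Fin p) + 1 = B := ⟨_, rfl⟩
  have hp1 : 1 ≤ p := (Fact.out : p.Prime).one_lt.le
  have hsub : Finset.univ.filter (fun γ => nxt b G β m γ ≠ 0) ⊆
      Finset.univ.filter (fun γ : Fin r → Fin p => deg γ < deg β) ∪
        (Finset.univ.filter (fun γ => m γ ≠ 0)).erase β := by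
    intro γ hγ
    rw [Finset.mem_filter] at hγ
    rw [Finset.mem_union, Finset.mem_filter, Finset.mem_erase, Finset.mem_filter]
    by_cases hd : deg γ < deg β
    · exact Or.inl ⟨Finset.mem_univ _, hd⟩
    · right
      push Not at hd
      have h1 := nxt_top (b := b) (G := G) hD hd
      have h2 : m γ ≠ 0 := by
        intro h0
        apply hγ.2
        rw [h1, h0, mul_zero, mul_zero, zero_pow (Fact.out : p.Prime).ne_zero, mul_zero, sub_zero]
      refine ⟨?_, Finset.mem_univ _, h2⟩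
      intro h0
      apply hγ.2
      rw [h1, h0]
      have e : m β ^ (p - 1) * m β = m β ^ p := by
        rw [← pow_succ]
        congr 1
        omega
      rw [e, sub_self]
  have h1 : meas (nxt b G β m) ≤
      ∑ γ ∈ Finset.univ.filter (fun γ : Fin r → Fin p => deg γ < deg β), B ^ deg γ +
        ∑ γ ∈ (Finset.univ.filter (fun γ => m γ ≠ 0)).erase β, B ^ deg γ := by
    have e0 : meas (nxt b G β m) =
        ∑ γ ∈ Finset.univ.filter (fun γ => nxt b G β m γ ≠ 0), B ^ deg γ := by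
      unfold meas
      rw [hB]
    rw [e0]
    refine (Finset.sum_le_sum_of_subset hsub).trans ?_
    have e1 := Finset.sum_union_inter (s₁ := Finset.univ.filter
      (fun γ : Fin r → Fin p => deg γ < deg β))
      (s₂ := (Finset.univ.filter (fun γ => m γ ≠ 0)).erase β) (f := fun γ => B ^ deg γ)
    omega
  have h2 : ∑ γ ∈ Finset.univ.filter (fun γ : Fin r → Fin p => deg γ < deg β), B ^ deg γ <
      B ^ deg β := by
    have h3 : ∑ γ ∈ Finset.univ.filter (fun γ : Fin r → Fin p => deg γ < deg β), B ^ deg γ ≤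
        ∑ _γ : Fin r → Fin p, B ^ (deg β - 1) := by
      refine (Finset.sum_le_sum fun γ hγ => ?_).trans
        (Finset.sum_le_sum_of_subset (Finset.filter_subset _ _))
      rw [Finset.mem_filter] at hγ
      exact Nat.pow_le_pow_right (by omega) (by omega)
    rw [Finset.sum_const, Finset.card_univ, smul_eq_mul] at h3
    refine lt_of_le_of_lt h3 ?_
    have h4 : B ^ deg β = B * B ^ (deg β - 1) := by
      rw [← pow_succ']
      congr 1
      omega
    rw [h4]
    exact Nat.mul_lt_mul_of_pos_right (by omega) (Nat.pow_pos (by omega))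
  have h5 : meas m = B ^ deg β +
      ∑ γ ∈ (Finset.univ.filter (fun γ => m γ ≠ 0)).erase β, B ^ deg γ := by
    have e0 : meas m = ∑ γ ∈ Finset.univ.filter (fun γ => m γ ≠ 0), B ^ deg γ := by
      unfold meas
      rw [hB]
    rw [e0]
    exact (Finset.add_sum_erase _ (fun γ => B ^ deg γ)
      (Finset.mem_filter.2 ⟨Finset.mem_univ _, hβ⟩)).symm
  rw [h5]
  omega

theorem const_of_pow_b {b : ZMod p} {v θ : PowerSeries (ZMod p)} (hv : v ≠ 0)
    (h : v ^ (p - 1) * θ = C b * θ ^ p) : ∃ t : ZMod p, θ = C t * v ∧ t = b * t := by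
  have hp1 : 1 < p := (Fact.out : p.Prime).one_lt
  by_cases hθ : θ = 0
  · exact ⟨0, by rw [hθ, map_zero, zero_mul], by rw [mul_zero]⟩
  have hb : b ≠ 0 := by
    intro h0
    rw [h0, map_zero, zero_mul] at h
    rcases mul_eq_zero.1 h with h1 | h1
    · exact pow_ne_zero _ hv h1
    · exact hθ h1
  have hvp : v ^ (p - 1) = C b * θ ^ (p - 1) := by
    refine mul_right_cancel₀ hθ ?_
    rw [h, mul_assoc, ← pow_succ]
    congr 2
    omega
  let K := FractionRing (PowerSeries (ZMod p))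
  have hinj : Function.Injective (algebraMap (PowerSeries (ZMod p)) K) :=
    IsFractionRing.injective _ _
  have hv' : algebraMap (PowerSeries (ZMod p)) K v ≠ 0 := fun h0 =>
    hv (hinj (by rw [h0, map_zero]))
  have hb' : (C b⁻¹ * C b : PowerSeries (ZMod p)) = 1 := by
    rw [← map_mul, inv_mul_cancel₀ hb, map_one]
  obtain ⟨x, hx⟩ : ∃ x : K, x = algebraMap _ K θ / algebraMap _ K v := ⟨_, rfl⟩
  have hx1 : x ^ (p - 1) = algebraMap (PowerSeries (ZMod p)) K (C b⁻¹) := by
    rw [hx, div_pow, div_eq_iff (pow_ne_zero _ hv'), ← map_pow, ← map_pow, ← map_mul, hvp,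
      ← mul_assoc, hb', one_mul]
  have hint : IsIntegral (PowerSeries (ZMod p)) x := by
    refine IsIntegral.of_pow (n := p - 1) (by omega) ?_
    rw [hx1]
    exact isIntegral_algebraMap
  obtain ⟨y, hy⟩ := IsIntegrallyClosed.isIntegral_iff.1 hint
  have hθy : θ = y * v := by
    apply hinj
    rw [map_mul, hy, hx, div_mul_cancel₀ _ hv']
  have hy1 : y ^ (p - 1) = C b⁻¹ := by
    apply hinj
    rw [map_pow, hy, hx1]
  have hy0 : (constantCoeff y) ^ (p - 1) = b⁻¹ := by
    rw [← map_pow, hy1, constantCoeff_C]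
  have hy2 : constantCoeff y ≠ 0 := by
    intro h0
    rw [h0, zero_pow (by omega)] at hy0
    exact hb (inv_eq_zero.1 hy0.symm)
  rw [ZMod.pow_card_sub_one_eq_one hy2] at hy0
  have hb1 : b = 1 := by rw [← inv_inv b, ← hy0, inv_one]
  rw [hb1, map_one, one_mul] at h
  obtain ⟨t, ht⟩ := const_of_pow hv h
  exact ⟨t, ht, by rw [hb1, one_mul]⟩

/-- The dichotomy. -/
theorem dicho {μ s₀ : ℕ} {M : ℕ → Submodule (ZMod p) (PowerSeries (ZMod p))} (hp : 3 < p)
    (hM : MFam p μ s₀ M) {κ : ℕ} {b : ZMod p} {h G : Fin r → PowerSeries (ZMod p)}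
    (hA : AS M κ b h G) (hn : ¬ Indep M κ h) :
    ∃ (c : Fin r → ZMod p) (k0 : ZMod p) (V : ℕ) (v u : PowerSeries (ZMod p)),
      c ≠ 0 ∧ k0 = b * k0 ∧ v ≠ 0 ∧ v ∈ M V ∧ u ∈ M (V + κ) ∧
        v * (∑ s, C (c s) * h s - C k0) + u = 0 := by
  classical
  have hp0 : p ≠ 0 := by omega
  have hchar : CharP (PowerSeries (ZMod p)) p :=
    charP_of_injective_ringHom (f := (C : ZMod p →+* PowerSeries (ZMod p))) C_injective p
  have hex : ∃ n : ℕ, ∃ (W : ℕ) (m : (Fin r → Fin p) → PowerSeries (ZMod p)),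
      Pure M κ W m ∧ ∑ α, m α * mon h α = 0 ∧ (∃ α, m α ≠ 0) ∧ meas m = n := by
    unfold Indep at hn
    push Not at hn
    obtain ⟨W, m, h1, h2, h3⟩ := hn
    exact ⟨_, W, m, h1, h2, h3, rfl⟩
  obtain ⟨W, m, hm, hrel, ⟨α0, hα0⟩, hmeas⟩ := Nat.find_spec hex
  have hmin : ∀ n, (∃ (W : ℕ) (m : (Fin r → Fin p) → PowerSeries (ZMod p)),
      Pure M κ W m ∧ ∑ α, m α * mon h α = 0 ∧ (∃ α, m α ≠ 0) ∧ meas m = n) → meas m ≤ n := by
    intro n hnn
    rw [hmeas]
    exact Nat.find_min' hex hnn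
  obtain ⟨β, hβS, hβmax⟩ := Finset.exists_max_image
    (Finset.univ.filter (fun α => m α ≠ 0)) deg ⟨α0, Finset.mem_filter.2 ⟨Finset.mem_univ _, hα0⟩⟩
  have hβ : m β ≠ 0 := (Finset.mem_filter.1 hβS).2
  have hD : ∀ α, m α ≠ 0 → deg α ≤ deg β := fun α hα =>
    hβmax α (Finset.mem_filter.2 ⟨Finset.mem_univ _, hα⟩)
  have hD1 : 1 ≤ deg β := by
    by_contra hc
    have hdz : ∀ α : Fin r → Fin p, deg α = 0 → ∀ s, (α s : ℕ) = 0 := fun α h0 s =>
      (Finset.sum_eq_zero_iff.1 h0) s (Finset.mem_univ s)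
    have hβz := hdz β (by omega)
    have h1 : ∑ α, m α * mon h α = m β := by
      rw [Finset.sum_eq_single β]
      · have : mon h β = 1 := by
          unfold mon
          refine Finset.prod_eq_one fun s _ => ?_
          rw [hβz s, pow_zero]
        rw [this, mul_one]
      · intro α _ hα
        have : m α = 0 := by
          by_contra hc2
          apply hα
          funext s
          apply Fin.ext
          have h2 := hD α hc2
          rw [hdz α (by omega) s, hβz s]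
        rw [this, zero_mul]
      · intro h2
        exact absurd (Finset.mem_univ β) h2
    exact hβ (by rw [← h1, hrel])
  have hnxt : ∀ γ, nxt b G β m γ = 0 := by
    by_contra hc
    push Not at hc
    have h1 := hmin _ ⟨_, nxt b G β m, nxt_pure hp hM hA β hm, nxt_rel hA β hrel, hc, rfl⟩
    exact absurd (nxt_meas (b := b) (G := G) hβ hD1 hD) (by omega)
  have hCb : (C (b ^ deg β) * C (b⁻¹ ^ deg β) : PowerSeries (ZMod p)) = 1 := by
    rw [← map_mul, ← mul_pow, mul_inv_cancel₀ hA.b_ne, one_pow, map_one]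
  have hkk : ∀ γ, deg γ = deg β → ∃ t : ZMod p, m γ = C t * m β := by
    intro γ hγ
    refine const_of_pow hβ ?_
    have h1 := hnxt γ
    rw [nxt_top hD (le_of_eq hγ.symm), hγ, ← mul_sub] at h1
    have h2 : C (b ^ deg β) * (C (b⁻¹ ^ deg β) * (m β ^ (p - 1) * m γ - m γ ^ p)) = 0 := by
      rw [h1, mul_zero]
    rw [← mul_assoc, hCb, one_mul] at h2
    exact sub_eq_zero.1 h2
  obtain ⟨t, ht⟩ : ∃ t, 1 ≤ (β t : ℕ) := by
    by_contra hc
    push Not at hc
    have : deg β = 0 := Finset.sum_eq_zero fun s _ => by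
      have := hc s
      omega
    omega
  have hβp : (β t : ℕ) < p := (β t).isLt
  obtain ⟨γ₀, hγ₀⟩ : ∃ γ₀, γ₀ = Function.update β t ⟨(β t : ℕ) - 1, by omega⟩ := ⟨_, rfl⟩
  have hγt : (γ₀ t : ℕ) = β t - 1 := by rw [hγ₀, Function.update_self]
  have hγt1 : (γ₀ t : ℕ) + 1 < p := by omega
  have hup : up γ₀ t = β := by
    funext s
    apply Fin.ext
    by_cases hs : s = t
    · rw [hs, up_apply_self hγt1]
      omega
    · rw [up_apply_ne hs, hγ₀, Function.update_of_ne hs]
  have hdeg : deg β = deg γ₀ + 1 := by rw [← hup, deg_up hγt1]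
  have hsum : ∑ α, m α ^ p * cf b G α γ₀ = m γ₀ ^ p * cf b G γ₀ γ₀ +
      ∑ s ∈ Finset.univ.filter (fun s => (γ₀ s : ℕ) + 1 < p),
        m (up γ₀ s) ^ p * cf b G (up γ₀ s) γ₀ := by
    have hnot : γ₀ ∉ (Finset.univ.filter (fun s => (γ₀ s : ℕ) + 1 < p)).image (up γ₀) := by
      intro hmem
      rw [Finset.mem_image] at hmem
      obtain ⟨s, hs, hs2⟩ := hmem
      have h1 := deg_up (Finset.mem_filter.1 hs).2
      rw [hs2] at h1
      omega
    have hinj : Set.InjOn (up γ₀)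
        (Finset.univ.filter (fun s => (γ₀ s : ℕ) + 1 < p) : Finset (Fin r)) := by
      intro s hs s' _ h1
      exact up_injective (Finset.mem_filter.1 (Finset.mem_coe.1 hs)).2 h1
    rw [← Finset.sum_image (f := fun α => m α ^ p * cf b G α γ₀) hinj,
      ← Finset.sum_insert (f := fun α => m α ^ p * cf b G α γ₀) hnot]
    symm
    refine Finset.sum_subset (Finset.subset_univ _) fun α _ hα => ?_
    by_cases h0 : cf b G α γ₀ = 0
    · rw [h0, mul_zero]
    by_cases h1 : m α = 0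
    · rw [h1, zero_pow hp0, zero_mul]
    exfalso
    apply hα
    have h2 := hD α h1
    have h3 := deg_mono (cf_le h0)
    rw [Finset.mem_insert, Finset.mem_image]
    by_cases h4 : deg α ≤ deg γ₀
    · exact Or.inl (eq_of_deg (cf_le h0) h4)
    · right
      obtain ⟨s, hs, hs2⟩ := exists_up (cf_le h0) (by omega : deg α = deg γ₀ + 1)
      exact ⟨s, Finset.mem_filter.2 ⟨Finset.mem_univ _, hs⟩, hs2⟩
  have hk2 : ∀ s, (γ₀ s : ℕ) + 1 < p → ∃ k : ZMod p, m (up γ₀ s) = C k * m β := fun s hs =>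
    hkk _ (by rw [deg_up hs, hdeg])
  choose! kk hkk2 using hk2
  obtain ⟨c, hc⟩ : ∃ c : Fin r → ZMod p, c = fun s => if (γ₀ s : ℕ) + 1 < p then
    ((((γ₀ s : ℕ) + 1 : ℕ) : ZMod p)) * kk s else 0 := ⟨_, rfl⟩
  have hterm : ∑ s ∈ Finset.univ.filter (fun s => (γ₀ s : ℕ) + 1 < p),
      m (up γ₀ s) ^ p * cf b G (up γ₀ s) γ₀ =
        -(C (b⁻¹ ^ deg β) * (m β ^ p * ∑ s, C (c s) * G s)) := by
    rw [Finset.sum_filter, Finset.mul_sum, Finset.mul_sum, ← Finset.sum_neg_distrib]
    refine Finset.sum_congr rfl fun s _ => ?_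
    rw [hc]
    by_cases hs : (γ₀ s : ℕ) + 1 < p
    · simp only [hs, if_true]
      rw [hkk2 s hs, cf_up b G hs, mul_pow, ← map_pow, ZMod.pow_card, hdeg, map_mul, map_natCast]
      ring
    · simp only [hs, if_false]
      rw [map_zero, zero_mul, mul_zero, mul_zero, neg_zero]
  have hmain : m β ^ (p - 1) * m γ₀ = C b * m γ₀ ^ p - m β ^ p * ∑ s, C (c s) * G s := by
    have h1 := hnxt γ₀
    unfold nxt at h1
    rw [hsum, hterm, cf_self] at h1
    have h2 : C (b ^ deg β) * (C (b⁻¹ ^ deg β) * m β ^ (p - 1) * m γ₀ -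
        (m γ₀ ^ p * C (b⁻¹ ^ deg γ₀) +
          -(C (b⁻¹ ^ deg β) * (m β ^ p * ∑ s, C (c s) * G s)))) = 0 := by
      rw [h1, mul_zero]
    have h3 : C (b ^ deg β) * C (b⁻¹ ^ deg γ₀) = (C b : PowerSeries (ZMod p)) := by
      rw [← map_mul, hdeg, pow_succ, mul_right_comm, ← mul_pow, mul_inv_cancel₀ hA.b_ne, one_pow,
        one_mul]
    have h4 : C (b ^ deg β) * (C (b⁻¹ ^ deg β) * m β ^ (p - 1) * m γ₀ -
        (m γ₀ ^ p * C (b⁻¹ ^ deg γ₀) +
          -(C (b⁻¹ ^ deg β) * (m β ^ p * ∑ s, C (c s) * G s)))) =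
        (C (b ^ deg β) * C (b⁻¹ ^ deg β)) * (m β ^ (p - 1) * m γ₀) -
          (C (b ^ deg β) * C (b⁻¹ ^ deg γ₀)) * m γ₀ ^ p +
          (C (b ^ deg β) * C (b⁻¹ ^ deg β)) * (m β ^ p * ∑ s, C (c s) * G s) := by ring
    rw [h4, hCb, h3, one_mul, one_mul] at h2
    linear_combination h2
  have hθ : m β ^ (p - 1) * (m γ₀ + m β * ∑ s, C (c s) * h s) =
      C b * (m γ₀ + m β * ∑ s, C (c s) * h s) ^ p := by
    have h1 : (∑ s, C (c s) * h s) ^ p = ∑ s, C (c s) * h s ^ p := by
      rw [sum_pow_char]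
      refine Finset.sum_congr rfl fun s _ => ?_
      rw [mul_pow, ← map_pow, ZMod.pow_card]
    have h2 : ∑ s, C (c s) * h s = C b * (∑ s, C (c s) * h s ^ p) + ∑ s, C (c s) * G s := by
      rw [Finset.mul_sum, ← Finset.sum_add_distrib]
      refine Finset.sum_congr rfl fun s _ => ?_
      nth_rw 1 [hA.eq s]
      ring
    have h3 : m β ^ (p - 1) * m β = m β ^ p := by
      rw [← pow_succ]
      congr 1
      omega
    rw [add_pow_char, mul_pow, h1, mul_add, hmain, ← mul_assoc, h3]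
    linear_combination m β ^ p * h2
  obtain ⟨k0, hk0, hk0b⟩ := const_of_pow_b hβ hθ
  refine ⟨c, k0, _, m β, m γ₀, ?_, hk0b, hβ, hm β, ?_, ?_⟩
  · intro hc0
    have h1 : c t = 0 := by rw [hc0]; rfl
    rw [hc] at h1
    simp only [hγt1, if_true] at h1
    have h2 : kk t = 1 := by
      have h3 := hkk2 t hγt1
      rw [hup] at h3
      have h4 : (C (kk t) : PowerSeries (ZMod p)) = 1 := by
        refine mul_right_cancel₀ hβ ?_
        rw [← h3, one_mul]
      have h5 := congrArg constantCoeff h4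
      rwa [constantCoeff_C, map_one] at h5
    rw [h2, mul_one, ZMod.natCast_eq_zero_iff] at h1
    have h6 := Nat.le_of_dvd (by omega) h1
    omega
  · have h1 := hm γ₀
    have h2 := deg_le β
    have e : W + (r * p - deg γ₀) * κ = W + (r * p - deg β) * κ + κ := by
      have e1 : r * p - deg γ₀ = (r * p - deg β) + 1 := by omega
      rw [e1]
      ring
    rwa [e] at h1
  · linear_combination hk0

end H22Z
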