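import Pool.Agent.Lib.H22Z.Z0

/-!
# H22Z, Z2: iteration of `H = b H^p + g`

PROOF. First: for all `n` there is `g_n ∈ M (p^n κ)` with `H^(p^(n+1)) = b^(-(n+1)) H - g_n`.
`n = 0`: `H^p = b⁻¹ (H - g)`, `g_0 = b⁻¹ g`. Step: take the `p`-th power (characteristic `p`:
`sub_pow_char`, `c^p = c` for constants `ZMod.pow_card`): `H^(p^(n+2)) = b^(-(n+1)) H^p - g_n^p`, so
`g_(n+1) = b^(-(n+2)) g + g_n^p`; `g_n^p ∈ M (p p^n κ)` (`MFam.pow`), and `g ∈ M κ ⊆ M (p^(n+1) κ)` by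
`fill` since `p^(n+1) κ = κ + (p-1) t`.
Then `v H^(p^(n+1)) = b^(-(n+1)) (v H) - v g_n = - b^(-(n+1)) u - v g_n`, with
`u ∈ M (V + κ) ⊆ M (V + p^n κ)` (`fill` again).
-/

namespace H22Z

open PowerSeries H94M H53M

variable {p : ℕ} [Fact p.Prime]

instance Z2_charP : CharP (PowerSeries (ZMod p)) p :=
  charP_of_injective_ringHom (PowerSeries.C_injective (R := ZMod p)) p

theorem Z2_pow {μ s₀ : ℕ} {M : ℕ → Submodule (ZMod p) (PowerSeries (ZMod p))} (hp : 3 < p)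
    (hM : MFam p μ s₀ M) {κ : ℕ} {b : ZMod p} (hb : b ≠ 0) {H g : PowerSeries (ZMod p)}
    (hH : H = C b * H ^ p + g) (hg : g ∈ M κ) (n : ℕ) :
    ∃ y ∈ M (p ^ n * κ), H ^ p ^ (n + 1) = C (b⁻¹ ^ (n + 1)) * H - y := by
  have hG : C b⁻¹ * g ∈ M κ := C_mul_mem hM _ hg
  have hbase : H ^ p = C b⁻¹ * H - C b⁻¹ * g := by
    have h1 : H - g = C b * H ^ p := by
      nth_rw 1 [hH]
      ring
    rw [← mul_sub, h1, ← mul_assoc, ← map_mul, inv_mul_cancel₀ hb, map_one, one_mul]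
  induction n with
  | zero =>
    refine ⟨C b⁻¹ * g, ?_, ?_⟩
    · rwa [pow_zero, one_mul]
    · rw [zero_add, pow_one, pow_one, hbase]
  | succ n ih =>
    obtain ⟨y, hy, hyp⟩ := ih
    refine ⟨C (b⁻¹ ^ (n + 1)) * (C b⁻¹ * g) + y ^ p, ?_, ?_⟩
    · refine Submodule.add_mem _ ?_ ?_
      · refine C_mul_mem hM _ ?_
        obtain ⟨t, ht⟩ : (p - 1) ∣ p ^ (n + 1) - 1 := by
          have := Nat.sub_dvd_pow_sub_pow p 1 (n + 1)
          rwa [one_pow] at this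
        have hpos : 1 ≤ p ^ (n + 1) := Nat.one_le_pow _ _ (by omega)
        refine fill hp hM hG (t * κ) ?_
        have h1 : p ^ (n + 1) = 1 + (p - 1) * t := by omega
        rw [h1]
        ring
      · have h1 := hM.pow hy p
        have e : p * (p ^ n * κ) = p ^ (n + 1) * κ := by ring
        rwa [e] at h1
    · have h1 : H ^ p ^ (n + 1 + 1) = (H ^ p ^ (n + 1)) ^ p := by
        rw [← pow_mul, ← pow_succ]
      rw [h1, hyp, sub_pow_char, mul_pow, hbase, ← map_pow, ZMod.pow_card]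
      rw [pow_succ (b⁻¹) (n + 1), map_mul]
      ring

theorem iter_mem {μ s₀ : ℕ} {M : ℕ → Submodule (ZMod p) (PowerSeries (ZMod p))} (hp : 3 < p)
    (hM : MFam p μ s₀ M) {κ : ℕ} {b : ZMod p} (hb : b ≠ 0) {H g u v : PowerSeries (ZMod p)} {V : ℕ}
    (hH : H = C b * H ^ p + g) (hg : g ∈ M κ) (hv : v ∈ M V) (hu : u ∈ M (V + κ))
    (hvu : v * H + u = 0) (n : ℕ) : v * H ^ (p ^ (n + 1)) ∈ M (V + p ^ n * κ) := by
  obtain ⟨y, hy, hyp⟩ := Z2_pow hp hM hb hH hg n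
  have h1 : v * H ^ p ^ (n + 1) = -(C (b⁻¹ ^ (n + 1)) * u) - v * y := by
    rw [hyp]
    linear_combination C (b⁻¹ ^ (n + 1)) * hvu
  rw [h1]
  refine Submodule.sub_mem _ (Submodule.neg_mem _ ?_) (hM.mul _ _ _ _ hv hy)
  refine C_mul_mem hM _ ?_
  obtain ⟨t, ht⟩ : (p - 1) ∣ p ^ n - 1 := by
    have := Nat.sub_dvd_pow_sub_pow p 1 n
    rwa [one_pow] at this
  have hpos : 1 ≤ p ^ n := Nat.one_le_pow _ _ (by omega)
  refine fill hp hM hu (t * κ) ?_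
  have h1 : p ^ n = 1 + (p - 1) * t := by omega
  rw [h1]
  ring

end H22Z
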