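import Pool.Agent.Lib.H22Z.Z2

/-!
# H22Z, Z3: the Sturm bound for `x = ∑ P_i H^i`

PROOF. Suppose `x ≠ 0`. For every `n`, `x^(p^(n+1)) = ∑ P_i^(p^(n+1)) (H^(p^(n+1)))^i`, so
`v^I x^(p^(n+1)) = ∑ P_i^(p^(n+1)) v^(I-i) (v H^(p^(n+1)))^i` lies, by `iter_mem`, in the sum of the
`M (p^(n+1) (e - i (k-2)) + (I-i) V + i (V + p^n ((k-2) p + (p-1))))`, all contained (`fill`, the
difference is `(I-i) p^n (p-1)`) in `M (p^(n+1) e + I V + I p^n (p-1))`. This element is not `0`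
(`𝔽_p[[q]]` is a domain), so by `hM.sturm` some coefficient with index
`N ≤ μ (p^(n+1) e + I V + I p^n (p-1)) / 12 + s₀` is nonzero. On the other hand its order is at
least `p^(n+1) ord x`. So `12 p^(n+1) ord x ≤ μ p^(n+1) e + μ I V + μ I p^n (p-1) + 12 s₀ ≤
p^(n+1) μ (e + I) + (μ I V + 12 s₀)`; choose `n` with `μ I V + 12 s₀ < p^(n+1)`:
`12 ord x < μ (e + I) + 1`, so `12 ord x ≤ μ (e + I)`, against `h0` at the order of `x`.
-/

namespace H22Z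

open PowerSeries H94M H53M

variable {p : ℕ} [Fact p.Prime]

/-- `v^I x^(p^(n+1))` is modular. -/
theorem Z3_mem {μ s₀ : ℕ} {M : ℕ → Submodule (ZMod p) (PowerSeries (ZMod p))} (hp : 3 < p)
    (hM : MFam p μ s₀ M) {d : ℕ} {b : ZMod p} (hb : b ≠ 0)
    {H g u v : PowerSeries (ZMod p)} {V : ℕ} (hH : H = C b * H ^ p + g)
    (hg : g ∈ M (d * p + (p - 1))) (hv : v ∈ M V)
    (hu : u ∈ M (V + (d * p + (p - 1)))) (hvu : v * H + u = 0)
    (I e : ℕ) (P : ℕ → PowerSeries (ZMod p))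
    (hP : ∀ i ≤ I, i * d ≤ e ∧ P i ∈ M (e - i * d)) (n : ℕ) :
    v ^ I * (∑ i ∈ Finset.range (I + 1), P i * H ^ i) ^ p ^ (n + 1) ∈
      M (p ^ (n + 1) * e + I * V + I * (p ^ n * (p - 1))) := by
  have hy := iter_mem hp hM hb hH hg hv hu hvu n
  rw [sum_pow_char_pow, Finset.mul_sum]
  refine Submodule.sum_mem _ fun i hi => ?_
  have hiI : i ≤ I := by
    rw [Finset.mem_range] at hi
    omega
  obtain ⟨hie, hPi⟩ := hP i hiI
  have e1 : v ^ I * (P i * H ^ i) ^ p ^ (n + 1) =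
      P i ^ p ^ (n + 1) * v ^ (I - i) * (v * H ^ p ^ (n + 1)) ^ i := by
    rw [mul_pow, mul_pow, ← pow_mul, ← pow_mul, mul_comm i (p ^ (n + 1))]
    have h2 : v ^ I = v ^ (I - i) * v ^ i := by
      rw [← pow_add]
      congr 1
      omega
    rw [h2]
    ring
  rw [e1]
  have m1 := hM.pow hPi (p ^ (n + 1))
  have m2 := hM.pow hv (I - i)
  have m3 := hM.pow hy i
  have m4 := hM.mul _ _ _ _ (hM.mul _ _ _ _ m1 m2) m3
  refine fill hp hM m4 ((I - i) * p ^ n) ?_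
  obtain ⟨a, ha⟩ : ∃ a, e = a + i * d := ⟨e - i * d, by omega⟩
  obtain ⟨j, hj⟩ : ∃ j, I = j + i := ⟨I - i, by omega⟩
  obtain ⟨q, hq⟩ : ∃ q, p = q + 1 := ⟨p - 1, by omega⟩
  rw [ha, Nat.add_sub_cancel, hj, Nat.add_sub_cancel]
  have hq1 : p - 1 = q := by omega
  rw [hq1]
  have hpq : p ^ (n + 1) = p ^ n * q + p ^ n := by
    rw [pow_succ, hq]
    ring
  have hpq2 : p ^ n * (d * p + q) = d * p ^ (n + 1) + p ^ n * q := by
    rw [pow_succ]
    ring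
  rw [hpq2]
  ring

theorem sturm_x {μ s₀ : ℕ} {M : ℕ → Submodule (ZMod p) (PowerSeries (ZMod p))} (hp : 3 < p)
    (hM : MFam p μ s₀ M) {k : ℕ} {b : ZMod p} (hb : b ≠ 0)
    {H g u v : PowerSeries (ZMod p)} {V : ℕ} (hH : H = C b * H ^ p + g)
    (hg : g ∈ M ((k - 2) * p + (p - 1))) (hv0 : v ≠ 0) (hv : v ∈ M V)
    (hu : u ∈ M (V + ((k - 2) * p + (p - 1)))) (hvu : v * H + u = 0)
    (I e : ℕ) (he : I * (k - 2) ≤ e) (P : ℕ → PowerSeries (ZMod p))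
    (hP : ∀ i, i ≤ I → P i ∈ M (e - i * (k - 2)))
    (h0 : ∀ n, 12 * n ≤ μ * (e + I) →
      coeff n (∑ i ∈ Finset.range (I + 1), P i * H ^ i) = 0) :
    ∑ i ∈ Finset.range (I + 1), P i * H ^ i = 0 := by
  set x := ∑ i ∈ Finset.range (I + 1), P i * H ^ i with hxdef
  by_contra hne
  set n := μ * (I * V) + 12 * s₀ with hn
  set N := μ * (e + I) / 12 + 1 with hN
  have hXx : (X : PowerSeries (ZMod p)) ^ N ∣ x := by
    rw [X_pow_dvd_iff]
    intro m hm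
    refine h0 m ?_
    have : m ≤ μ * (e + I) / 12 := by omega
    calc 12 * m ≤ 12 * (μ * (e + I) / 12) := Nat.mul_le_mul_left _ this
      _ ≤ μ * (e + I) := Nat.mul_div_le _ _
  have hP' : ∀ i ≤ I, i * (k - 2) ≤ e ∧ P i ∈ M (e - i * (k - 2)) := fun i hi =>
    ⟨(Nat.mul_le_mul_right _ hi).trans he, hP i hi⟩
  have hmem := Z3_mem hp hM hb hH hg hv hu hvu I e P hP' n
  rw [← hxdef] at hmem
  have hy0 : v ^ I * x ^ p ^ (n + 1) ≠ 0 :=
    mul_ne_zero (pow_ne_zero _ hv0) (pow_ne_zero _ hne)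
  apply hy0
  refine hM.sturm _ _ hmem fun j hj => ?_
  have hdvd : (X : PowerSeries (ZMod p)) ^ (N * p ^ (n + 1)) ∣ v ^ I * x ^ p ^ (n + 1) := by
    refine Dvd.dvd.mul_left ?_ _
    rw [pow_mul]
    exact pow_dvd_pow_of_dvd hXx _
  refine X_pow_dvd_iff.1 hdvd j ?_
  refine lt_of_le_of_lt hj ?_
  -- numerics
  have hpn : n < p ^ (n + 1) := by
    calc n < n + 1 := Nat.lt_succ_self n
      _ < p ^ (n + 1) := Nat.lt_pow_self (by omega)
  have h12 : μ * (e + I) + 1 ≤ 12 * N := by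
    have := Nat.lt_mul_div_succ (μ * (e + I)) (show 0 < 12 by norm_num)
    omega
  set T := p ^ (n + 1) * e + I * V + I * (p ^ n * (p - 1)) with hT
  have hT1 : T ≤ p ^ (n + 1) * (e + I) + I * V := by
    have h1 : p ^ n * (p - 1) ≤ p ^ (n + 1) := by
      rw [pow_succ]
      exact Nat.mul_le_mul_left _ (Nat.sub_le _ _)
    have h2 := Nat.mul_le_mul_left I h1
    rw [hT]
    nlinarith
  have h3 : μ * T + 12 * s₀ < 12 * (N * p ^ (n + 1)) := by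
    have h4 : μ * T ≤ μ * (p ^ (n + 1) * (e + I) + I * V) := Nat.mul_le_mul_left _ hT1
    have h5 : (μ * (e + I) + 1) * p ^ (n + 1) ≤ 12 * N * p ^ (n + 1) :=
      Nat.mul_le_mul_right _ h12
    have h6 : μ * (p ^ (n + 1) * (e + I) + I * V) =
        μ * (e + I) * p ^ (n + 1) + μ * (I * V) := by ring
    have h7 : (μ * (e + I) + 1) * p ^ (n + 1) = μ * (e + I) * p ^ (n + 1) + p ^ (n + 1) := by
      ring
    have h8 : 12 * N * p ^ (n + 1) = 12 * (N * p ^ (n + 1)) := by ring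
    omega
  have h9 : μ * T / 12 * 12 ≤ μ * T := Nat.div_mul_le_self _ _
  omega

end H22Z
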