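import Pool.Agent.Lib.H22Z.Z3

/-!
# H22Z, Z4: an algebraic relation of bounded degree for `H`

PROOF. Put `W = WW μ k`, `e = 12 W`, `I = 24 μ`. Unknowns: `a j l`, `j ≤ 2 μ`,
`l ≤ W - j (k-2)`; their number is `∑_(j ≤ 2μ) (W - j (k-2) + 1) = (2μ+1)(W+1) - μ (2μ+1)(k-2)`
(no truncation: `2 μ (k-2) ≤ W`). Conditions: the coefficients of
`x = ∑_j ∑_l a_(jl) Δ^l E₄^(3(W - j(k-2) - l)) H^(12 j)` with `12 n ≤ μ (e + I)`, that is
`n ≤ μ W + 2 μ²`: `μ W + 2 μ² + 1` linear equations, less than the number of unknowns. So there is a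
nontrivial solution (`LinearMap.exists_ne_zero_of_finrank_lt` or
`Matrix.exists_mulVec_eq_zero_iff...`, model: the counting lemmas of H53M), and `x = 0` by `sturm_x`
with `P_(12 j) = ∑_l a_(jl) Δ^l E₄^(3(...)) ∈ M (12 W - 12 j (k-2))`, `P_i = 0` for `12 ∤ i`
(`redZ p (dl^l * e4^a * e6^0) ∈ MP p (4 a + 12 l)`, `hM.le`).
-/

namespace H22Z

open PowerSeries H94M H53M

variable {p : ℕ} [Fact p.Prime]

/-- The constant. -/
def WW (μ k : ℕ) : ℕ := 4 * (μ + 1) ^ 2 * (k + 1)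

private theorem z4_count (W c μ : ℕ) (h : 2 * μ * c ≤ W) :
    ∀ m, m ≤ 2 * μ + 1 →
      2 * ∑ j ∈ Finset.range m, (W - j * c + 1) + c * (m * (m - 1)) = 2 * m * (W + 1) := by
  intro m
  induction m with
  | zero => intro _; simp
  | succ m ih =>
    intro hm
    rw [Finset.sum_range_succ]
    have h1 := ih (by omega)
    have h2 : m * c ≤ W := by
      refine le_trans ?_ h
      exact Nat.mul_le_mul_right c (by omega)
    obtain ⟨d, hd⟩ := Nat.exists_eq_add_of_le h2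
    have h3 : W - m * c = d := by omega
    rw [h3]
    rcases m with _ | m
    · simp at h1 hd ⊢
      omega
    · have e1 : m + 1 - 1 = m := by omega
      have e2 : m + 1 + 1 - 1 = m + 1 := by omega
      rw [e1] at h1
      rw [e2]
      rw [hd] at h1 ⊢
      nlinarith

private theorem z4_big (μ k : ℕ) :
    2 * (μ * WW μ k + 2 * μ ^ 2 + 1) + (k - 2) * ((2 * μ + 1) * (2 * μ)) <
      2 * (2 * μ + 1) * (WW μ k + 1) := by
  have h1 : k - 2 ≤ k := Nat.sub_le _ _
  have h2 : (k - 2) * ((2 * μ + 1) * (2 * μ)) ≤ k * ((2 * μ + 1) * (2 * μ)) :=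
    Nat.mul_le_mul_right _ h1
  have h3 : 2 * (μ * WW μ k + 2 * μ ^ 2 + 1) + k * ((2 * μ + 1) * (2 * μ)) <
      2 * (2 * μ + 1) * (WW μ k + 1) := by
    unfold WW
    have h4 : 0 ≤ μ * μ * μ * k := Nat.zero_le _
    have h5 : 0 ≤ μ * μ * k := Nat.zero_le _
    have h6 : 0 ≤ μ * k := Nat.zero_le _
    ring_nf
    nlinarith
  omega

private theorem z4_le (μ k : ℕ) : 2 * μ * (k - 2) ≤ WW μ k := by
  have h1 : k - 2 ≤ k := Nat.sub_le _ _
  have h2 : 2 * μ * (k - 2) ≤ 2 * μ * k := Nat.mul_le_mul_left _ h1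
  have h3 : 2 * μ * k ≤ WW μ k := by
    unfold WW
    nlinarith [Nat.zero_le (μ * μ * k), Nat.zero_le (μ * k), Nat.zero_le (μ * μ), Nat.zero_le μ]
  omega

theorem exists_rel {μ s₀ : ℕ} {M : ℕ → Submodule (ZMod p) (PowerSeries (ZMod p))} (hp : 3 < p)
    (hM : MFam p μ s₀ M) {k : ℕ} {b : ZMod p} (hb : b ≠ 0)
    {H g u v : PowerSeries (ZMod p)} {V : ℕ} (hH : H = C b * H ^ p + g)
    (hg : g ∈ M ((k - 2) * p + (p - 1))) (hv0 : v ≠ 0) (hv : v ∈ M V)
    (hu : u ∈ M (V + ((k - 2) * p + (p - 1)))) (hvu : v * H + u = 0) :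
    ∃ a : ℕ → ℕ → ZMod p, (∃ j l, j ≤ 2 * μ ∧ l ≤ WW μ k - j * (k - 2) ∧ a j l ≠ 0) ∧
      ∑ j ∈ Finset.range (2 * μ + 1), ∑ l ∈ Finset.range (WW μ k - j * (k - 2) + 1),
        C (a j l) * redZ p (dl ^ l * e4 ^ (3 * (WW μ k - j * (k - 2) - l))) * H ^ (12 * j) = 0 := by
  obtain ⟨W, hW⟩ : ∃ W, W = WW μ k := ⟨_, rfl⟩
  obtain ⟨c, hc⟩ : ∃ c, c = k - 2 := ⟨_, rfl⟩
  have hWc : 2 * μ * c ≤ W := by rw [hW, hc]; exact z4_le μ k
  obtain ⟨T, hT⟩ : ∃ T : ℕ → ℕ → PowerSeries (ZMod p),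
      ∀ j l, T j l = redZ p (dl ^ l * e4 ^ (3 * (W - j * c - l))) * H ^ (12 * j) :=
    ⟨fun j l => redZ p (dl ^ l * e4 ^ (3 * (W - j * c - l))) * H ^ (12 * j), fun _ _ => rfl⟩
  obtain ⟨N, hN⟩ : ∃ N, N = μ * W + 2 * μ ^ 2 + 1 := ⟨_, rfl⟩
  obtain ⟨S, hS⟩ : ∃ S : Finset (Σ _ : ℕ, ℕ),
      S = Finset.sigma (Finset.range (2 * μ + 1)) (fun j => Finset.range (W - j * c + 1)) :=
    ⟨_, rfl⟩
  have hcard : N < S.card := by
    have h1 := z4_count W c μ hWc (2 * μ + 1) le_rfl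
    have h2 := z4_big μ k
    rw [← hW, ← hc] at h2
    have h3 : S.card = ∑ j ∈ Finset.range (2 * μ + 1), (W - j * c + 1) := by
      rw [hS, Finset.card_sigma]
      simp
    have h4 : 2 * μ + 1 - 1 = 2 * μ := by omega
    rw [h4] at h1
    rw [h3, hN]
    omega
  -- the linear system
  have hker := LinearMap.ker_ne_bot_of_finrank_lt
    (f := Matrix.mulVecLin (Matrix.of fun (n : Fin N) (s : S) => coeff (n : ℕ) (T s.1.1 s.1.2)))
    (by
      rw [Module.finrank_fintype_fun_eq_card, Module.finrank_fintype_fun_eq_card,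
        Fintype.card_fin, Fintype.card_coe]
      exact hcard)
  obtain ⟨x, hx, hx0⟩ := (Submodule.ne_bot_iff _).mp hker
  rw [LinearMap.mem_ker, Matrix.mulVecLin_apply] at hx
  obtain ⟨a, ha⟩ : ∃ a : ℕ → ℕ → ZMod p, ∀ s : S, a s.1.1 s.1.2 = x s := by
    refine ⟨fun j l => if h : (⟨j, l⟩ : Σ _ : ℕ, ℕ) ∈ S then x ⟨⟨j, l⟩, h⟩ else 0, fun s => ?_⟩
    have h1 : (⟨s.1.1, s.1.2⟩ : Σ _ : ℕ, ℕ) ∈ S := s.2
    exact dif_pos h1
  refine ⟨a, ?_, ?_⟩
  · obtain ⟨s, hs⟩ := Function.ne_iff.mp hx0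
    have h0 : ∀ t : (Σ _ : ℕ, ℕ), t ∈ S → t.1 < 2 * μ + 1 ∧ t.2 < W - t.1 * c + 1 := by
      intro t ht
      rw [hS, Finset.mem_sigma, Finset.mem_range, Finset.mem_range] at ht
      exact ht
    have h1 := h0 s.1 s.2
    rw [← hW, ← hc]
    refine ⟨s.1.1, s.1.2, by omega, by omega, ?_⟩
    rw [ha]
    exact hs
  · rw [← hW, ← hc]
    have hsum : ∑ j ∈ Finset.range (2 * μ + 1), ∑ l ∈ Finset.range (W - j * c + 1),
        C (a j l) * redZ p (dl ^ l * e4 ^ (3 * (W - j * c - l))) * H ^ (12 * j) =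
        ∑ s : S, C (x s) * T s.1.1 s.1.2 := by
      have h1 : ∑ s : S, C (x s) * T s.1.1 s.1.2 = ∑ s ∈ S, C (a s.1 s.2) * T s.1 s.2 := by
        rw [← Finset.sum_coe_sort S (fun s => C (a s.1 s.2) * T s.1 s.2)]
        refine Finset.sum_congr rfl fun s _ => ?_
        rw [ha]
      rw [h1, hS, Finset.sum_sigma]
      refine Finset.sum_congr rfl fun j _ => Finset.sum_congr rfl fun l _ => ?_
      rw [hT, mul_assoc]
    have hcoef : ∀ n, n < N → coeff n (∑ j ∈ Finset.range (2 * μ + 1),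
        ∑ l ∈ Finset.range (W - j * c + 1),
          C (a j l) * redZ p (dl ^ l * e4 ^ (3 * (W - j * c - l))) * H ^ (12 * j)) = 0 := by
      intro n hn
      rw [hsum, map_sum]
      have h1 := congrFun hx ⟨n, hn⟩
      rw [Matrix.mulVec, dotProduct] at h1
      simp only [Matrix.of_apply, Pi.zero_apply] at h1
      rw [← h1]
      refine Finset.sum_congr rfl fun s _ => ?_
      rw [coeff_C_mul, mul_comm]
    -- regroup for the Sturm bound
    obtain ⟨P, hP⟩ : ∃ P : ℕ → PowerSeries (ZMod p), ∀ i, P i = if 12 ∣ i then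
        ∑ l ∈ Finset.range (W - i / 12 * c + 1),
          C (a (i / 12) l) * redZ p (dl ^ l * e4 ^ (3 * (W - i / 12 * c - l))) else 0 :=
      ⟨fun i => if 12 ∣ i then
        ∑ l ∈ Finset.range (W - i / 12 * c + 1),
          C (a (i / 12) l) * redZ p (dl ^ l * e4 ^ (3 * (W - i / 12 * c - l))) else 0,
        fun _ => rfl⟩
    have hreg : ∑ i ∈ Finset.range (24 * μ + 1), P i * H ^ i =
        ∑ j ∈ Finset.range (2 * μ + 1), ∑ l ∈ Finset.range (W - j * c + 1),
          C (a j l) * redZ p (dl ^ l * e4 ^ (3 * (W - j * c - l))) * H ^ (12 * j) := by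
      have h1 : ∀ j, ∑ l ∈ Finset.range (W - j * c + 1),
          C (a j l) * redZ p (dl ^ l * e4 ^ (3 * (W - j * c - l))) * H ^ (12 * j) =
          P (12 * j) * H ^ (12 * j) := by
        intro j
        rw [hP, if_pos (Dvd.intro j rfl), Nat.mul_div_cancel_left j (by norm_num),
          Finset.sum_mul]
      rw [Finset.sum_congr rfl fun j _ => h1 j]
      have h2 : ∑ j ∈ Finset.range (2 * μ + 1), P (12 * j) * H ^ (12 * j) =
          ∑ i ∈ (Finset.range (2 * μ + 1)).image (fun j => 12 * j), P i * H ^ i := by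
        rw [Finset.sum_image]
        intro x _ y _ hxy
        simpa using hxy
      rw [h2]
      symm
      refine Finset.sum_subset ?_ ?_
      · intro i hi
        rw [Finset.mem_image] at hi
        obtain ⟨j, hj, rfl⟩ := hi
        rw [Finset.mem_range] at hj ⊢
        omega
      · intro i hi hi2
        rw [hP, if_neg, zero_mul]
        rintro ⟨j, rfl⟩
        apply hi2
        rw [Finset.mem_image]
        refine ⟨j, ?_, rfl⟩
        rw [Finset.mem_range] at hi ⊢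
        omega
    rw [← hreg]
    refine sturm_x hp hM (k := k) hb hH hg hv0 hv hu hvu (24 * μ) (12 * W) ?_ P ?_ ?_
    · rw [← hc]
      have h1 : 24 * μ * c = 12 * (2 * μ * c) := by ring
      rw [h1]
      exact Nat.mul_le_mul_left _ hWc
    · intro i hi
      rw [← hc, hP]
      split_ifs with hdiv
      · obtain ⟨j, rfl⟩ := hdiv
        rw [Nat.mul_div_cancel_left j (by norm_num)]
        refine Submodule.sum_mem _ fun l hl => ?_
        rw [Finset.mem_range] at hl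
        refine C_mul_mem hM _ (hM.le _ ?_)
        have h1 := MP_mono p (3 * (W - j * c - l)) 0 l
        rw [pow_zero, mul_one] at h1
        have h2 : j * c ≤ W := by
          refine le_trans ?_ hWc
          exact Nat.mul_le_mul_right c (by omega)
        have h3 : 4 * (3 * (W - j * c - l)) + 6 * 0 + 12 * l = 12 * W - 12 * j * c := by
          have h4 : 12 * j * c = 12 * (j * c) := by ring
          omega
        rw [h3] at h1
        exact h1
      · exact zero_mem _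
    · intro n hn
      rw [hreg]
      refine hcoef n ?_
      have h1 : μ * (12 * W + 24 * μ) = 12 * (μ * W + 2 * μ ^ 2) := by ring
      rw [h1] at hn
      omega

end H22Z
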