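import Pool.Agent.Lib.H22Z.Z4
import Pool.Agent.Lib.H22Z.Z1B

/-!
# H22Z, Z5: independence of the monomials from bounded algebraic independence

PROOF. By contradiction: `dicho` (Z1B) gives `c ≠ 0`, `k0 = b k0`, `v ≠ 0`, `u` with
`v (∑ c_s h_s - k0) + u = 0`. Put `H = ∑ C (c s) * h s - C k0`, `g = ∑ C (c s) * G s`:
`H = C b * H^p + g` (characteristic `p`, `c_s^p = c_s`, `k0^p = k0`, `b k0 = k0`, `hA.eq`). Z4 gives
`a`. Put `Q = ∑_j ∑_l C (a j l) * X (inr 0)^l * X (inr 1)^(3(...)) * (∑_s C (c s) * X (inl s) - C k0)^(12 j)`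
in `MvPolynomial (Fin r ⊕ Fin 2) (ZMod p)`: `Q.totalDegree ≤ 3 WW + 24 μ` and `aeval ... Q = 0`, so
`Q = 0`. Choose `s` with `c s ≠ 0` and apply to `Q` the algebra homomorphism to
`MvPolynomial (Fin 3) (ZMod p)` with `inr 0 ↦ X 0`, `inr 1 ↦ X 1`,
`inl s ↦ C (c s)⁻¹ * (X 2 + C k0)`, `inl t ↦ 0` (`t ≠ s`): the bracket becomes `X 2`, and
`∑_j ∑_l a_(jl) X0^l X1^(..) X2^(12 j) = 0`; the monomials are distinct (`j` from the exponent of
`X 2`, then `l` from the one of `X 0`), so all `a_(jl) = 0`: contradiction.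
-/

namespace H22Z

open PowerSeries H94M H53M

variable {p : ℕ} [Fact p.Prime] {r : ℕ}

private theorem z5_eval (n : ℕ) (N : ℕ → ℕ) (a : ℕ → ℕ → ZMod p)
    (h : ∑ j ∈ Finset.range n, ∑ l ∈ Finset.range (N j + 1),
      Polynomial.C (Polynomial.C (a j l)) * (Polynomial.C (Polynomial.X : Polynomial (ZMod p))) ^ l * Polynomial.X ^ (12 * j) = 0) :
    ∀ j l, j < n → l ≤ N j → a j l = 0 := by
  intro j l hj hl
  have h1 := congrArg (fun P : Polynomial (Polynomial (ZMod p)) => (P.coeff (12 * j)).coeff l) h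
  simp only [Polynomial.finset_sum_coeff, Polynomial.coeff_zero] at h1
  have h2 : ∀ i m : ℕ, ((Polynomial.C (Polynomial.C (a i m)) * (Polynomial.C (Polynomial.X : Polynomial (ZMod p))) ^ m *
      Polynomial.X ^ (12 * i)).coeff (12 * j)).coeff l = if i = j ∧ m = l then a i m else 0 := by
    intro i m
    rw [← map_pow, ← map_mul, Polynomial.coeff_C_mul_X_pow]
    by_cases hij : i = j
    · subst hij
      rw [if_pos rfl, Polynomial.coeff_C_mul_X_pow]
      by_cases hml : m = l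
      · subst hml
        rw [if_pos rfl, if_pos ⟨rfl, rfl⟩]
      · rw [if_neg (fun h => hml h.symm), if_neg (fun h => hml h.2)]
    · rw [if_neg (fun h => hij (by omega)), if_neg (fun h => hij h.1), Polynomial.coeff_zero]
  simp only [h2] at h1
  rw [Finset.sum_eq_single j, Finset.sum_eq_single l] at h1
  · rw [if_pos ⟨rfl, rfl⟩] at h1
    exact h1
  · intro m _ hm
    rw [if_neg (fun h => hm h.2)]
  · intro hm
    exact absurd (Finset.mem_range.2 (by omega)) hm
  · intro i _ hi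
    refine Finset.sum_eq_zero fun m _ => ?_
    rw [if_neg (fun h => hi h.1)]
  · intro hi
    exact absurd (Finset.mem_range.2 hj) hi

/-- The polynomial of Z5. -/
private noncomputable def z5Q (n : ℕ) (N : ℕ → ℕ) (a : ℕ → ℕ → ZMod p) (c : Fin r → ZMod p) (k0 : ZMod p) :
    MvPolynomial (Fin r ⊕ Fin 2) (ZMod p) :=
  ∑ j ∈ Finset.range n, ∑ l ∈ Finset.range (N j + 1),
    MvPolynomial.C (a j l) * MvPolynomial.X (Sum.inr 0) ^ l * MvPolynomial.X (Sum.inr 1) ^ (3 * (N j - l)) *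
      (∑ s, MvPolynomial.C (c s) * MvPolynomial.X (Sum.inl s) - MvPolynomial.C k0) ^ (12 * j)

private theorem z5_deg (n D : ℕ) (N : ℕ → ℕ) (a : ℕ → ℕ → ZMod p) (c : Fin r → ZMod p) (k0 : ZMod p)
    (hD : ∀ j < n, 3 * N j + 12 * j ≤ D) : (z5Q n N a c k0).totalDegree ≤ D := by
  unfold z5Q
  refine MvPolynomial.totalDegree_finsetSum_le fun j hj => MvPolynomial.totalDegree_finsetSum_le fun l hl => ?_
  rw [Finset.mem_range] at hj hl
  have h1 : (∑ s, MvPolynomial.C (c s) * MvPolynomial.X (Sum.inl s) - MvPolynomial.C k0 :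
      MvPolynomial (Fin r ⊕ Fin 2) (ZMod p)).totalDegree ≤ 1 := by
    refine (MvPolynomial.totalDegree_sub _ _).trans (max_le ?_ ?_)
    · refine MvPolynomial.totalDegree_finsetSum_le fun s _ => ?_
      refine (MvPolynomial.totalDegree_mul _ _).trans ?_
      rw [MvPolynomial.totalDegree_C, zero_add]
      exact (MvPolynomial.totalDegree_X _).le
    · rw [MvPolynomial.totalDegree_C]
      exact Nat.zero_le _
  have h2 : ((∑ s, MvPolynomial.C (c s) * MvPolynomial.X (Sum.inl s) - MvPolynomial.C k0 :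
      MvPolynomial (Fin r ⊕ Fin 2) (ZMod p)) ^ (12 * j)).totalDegree ≤ 12 * j := by
    refine (MvPolynomial.totalDegree_pow _ _).trans ?_
    calc 12 * j * _ ≤ 12 * j * 1 := Nat.mul_le_mul_left _ h1
      _ = 12 * j := mul_one _
  have h3 : (MvPolynomial.X (Sum.inr 0) ^ l : MvPolynomial (Fin r ⊕ Fin 2) (ZMod p)).totalDegree ≤ l := by
    refine (MvPolynomial.totalDegree_pow _ _).trans ?_
    rw [MvPolynomial.totalDegree_X, mul_one]
  have h4 : (MvPolynomial.X (Sum.inr 1) ^ (3 * (N j - l)) : MvPolynomial (Fin r ⊕ Fin 2) (ZMod p)).totalDegree ≤ 3 * (N j - l) := by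
    refine (MvPolynomial.totalDegree_pow _ _).trans ?_
    rw [MvPolynomial.totalDegree_X, mul_one]
  have h5 := hD j hj
  refine (MvPolynomial.totalDegree_mul _ _).trans ?_
  refine (Nat.add_le_add (MvPolynomial.totalDegree_mul _ _) h2).trans ?_
  refine (Nat.add_le_add_right (Nat.add_le_add (MvPolynomial.totalDegree_mul _ _) h4) _).trans ?_
  rw [MvPolynomial.totalDegree_C]
  omega

private theorem z5_zero (n : ℕ) (N : ℕ → ℕ) (a : ℕ → ℕ → ZMod p) (c : Fin r → ZMod p) (k0 : ZMod p) (hc : c ≠ 0)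
    (hQ : z5Q n N a c k0 = 0) : ∀ j l, j < n → l ≤ N j → a j l = 0 := by
  classical
  obtain ⟨s, hs⟩ := Function.ne_iff.1 hc
  rw [Pi.zero_apply] at hs
  apply z5_eval n N a
  have h1 := congrArg (MvPolynomial.aeval (Sum.elim
    (fun t => if t = s then Polynomial.C (Polynomial.C (c s)⁻¹) * (Polynomial.X + Polynomial.C (Polynomial.C k0)) else 0)
    ![Polynomial.C (Polynomial.X : Polynomial (ZMod p)), 1])) hQ
  have h2 : ∀ x : ZMod p, algebraMap (ZMod p) (Polynomial (Polynomial (ZMod p))) x = Polynomial.C (Polynomial.C x) := fun x => rfl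
  unfold z5Q at h1
  simp only [map_sum, map_mul, map_pow, map_sub, MvPolynomial.aeval_C, MvPolynomial.aeval_X, Sum.elim_inl, Sum.elim_inr, map_zero, h2,
    Matrix.cons_val_zero, Matrix.cons_val_one, one_pow, mul_one, mul_ite, mul_zero, Finset.sum_ite_eq', Finset.mem_univ, if_true] at h1
  have h3 : Polynomial.C (Polynomial.C (c s)) * (Polynomial.C (Polynomial.C (c s)⁻¹) * (Polynomial.X + Polynomial.C (Polynomial.C k0))) -
      Polynomial.C (Polynomial.C k0) = (Polynomial.X : Polynomial (Polynomial (ZMod p))) := by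
    rw [← mul_assoc, ← map_mul, ← map_mul, mul_inv_cancel₀ hs, map_one, map_one, one_mul, add_sub_cancel_right]
  rw [h3] at h1
  exact h1

theorem indep_of_alg {μ s₀ : ℕ} {M : ℕ → Submodule (ZMod p) (PowerSeries (ZMod p))} (hp : 3 < p)
    (hM : MFam p μ s₀ M) {k : ℕ} {b : ZMod p} {h G : Fin r → PowerSeries (ZMod p)}
    (hA : AS M ((k - 2) * p + (p - 1)) b h G)
    (hQ : ∀ Q : MvPolynomial (Fin r ⊕ Fin 2) (ZMod p),
      Q.totalDegree ≤ 3 * WW μ k + 24 * μ →
        MvPolynomial.aeval (Sum.elim h ![redZ p dl, redZ p e4]) Q = 0 → Q = 0) :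
    Indep M ((k - 2) * p + (p - 1)) h := by
  by_contra hn
  obtain ⟨c, k0, V, v, u, hc0, hk0, hv0, hvV, huV, hrel⟩ := dicho hp hM hA hn
  have hchar : CharP (PowerSeries (ZMod p)) p :=
    charP_of_injective_ringHom (f := (C : ZMod p →+* PowerSeries (ZMod p))) C_injective p
  have hfr : ∀ x : ZMod p, (C x : PowerSeries (ZMod p)) ^ p = C x := by
    intro x
    rw [← map_pow, ZMod.pow_card]
  have hH : (∑ s, C (c s) * h s - C k0 : PowerSeries (ZMod p)) = C b * (∑ s, C (c s) * h s - C k0) ^ p + ∑ s, C (c s) * G s := by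
    rw [sub_pow_char, hfr k0, ← frobenius_def, map_sum]
    simp only [frobenius_def, mul_pow, hfr]
    rw [mul_sub, ← map_mul, ← hk0, Finset.mul_sum, sub_add_eq_add_sub, ← Finset.sum_add_distrib]
    congr 1
    refine Finset.sum_congr rfl fun s _ => ?_
    nth_rw 1 [hA.eq s]
    ring
  have hg : (∑ s, C (c s) * G s : PowerSeries (ZMod p)) ∈ M ((k - 2) * p + (p - 1)) :=
    Submodule.sum_mem _ fun s _ => C_mul_mem hM (c s) (hA.mem s)
  obtain ⟨a, ⟨j, l, hj, hl, hjl⟩, ha⟩ := exists_rel hp hM hA.b_ne hH hg hv0 hvV huV hrel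
  have hkey : z5Q (r := r) (2 * μ + 1) (fun j => WW μ k - j * (k - 2)) a c k0 = 0 := by
    apply hQ
    · apply z5_deg
      intro j hj
      have h1 : 3 * (WW μ k - j * (k - 2)) ≤ 3 * WW μ k := Nat.mul_le_mul_left _ (Nat.sub_le _ _)
      omega
    · rw [← ha]
      unfold z5Q
      rw [map_sum]
      refine Finset.sum_congr rfl fun j _ => ?_
      rw [map_sum]
      refine Finset.sum_congr rfl fun l _ => ?_
      have h2 : ∀ x : ZMod p, algebraMap (ZMod p) (PowerSeries (ZMod p)) x = C x := fun x => rfl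
      simp only [map_sum, map_mul, map_pow, map_sub, MvPolynomial.aeval_C, MvPolynomial.aeval_X, Sum.elim_inl, Sum.elim_inr, h2,
        Matrix.cons_val_zero, Matrix.cons_val_one]
      ring
  exact hjl (z5_zero _ _ a c k0 hc0 hkey j l (by omega) hl)

end H22Z
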