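import Pool.Agent.Lib.H22Z.Z6B

/-!
# H22Z, Z6: the zero estimate
-/

namespace H22Z

open PowerSeries H94M H53M

variable {p : ℕ} [Fact p.Prime] {r : ℕ}

theorem zero_est {μ s₀ : ℕ} {M : ℕ → Submodule (ZMod p) (PowerSeries (ZMod p))} (hp : 3 < p)
    (hM : MFam p μ s₀ M) {κ : ℕ} {b : ZMod p} {h G : Fin r → PowerSeries (ZMod p)}
    (hA : AS M κ b h G) (hI : Indep M κ h) {η : PowerSeries (ZMod p)} (hη : η ∈ M κ) (hη0 : η ≠ 0)
    {J w : ℕ} (P : (Fin r → Fin p) → PowerSeries (ZMod p)) (hP : ∀ α, P α ∈ M w)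
    (hP1 : ∀ α, deg α ≠ J → P α = 0) (hP0 : ∃ α, P α ≠ 0) :
    ∃ n, n ≤ μ * (p ^ r * (w + J * κ)) / 12 + s₀ ∧ coeff n (∑ α, P α * mon h α) ≠ 0 := by
  obtain ⟨α0, hα0⟩ := hP0
  have hJ0 : deg α0 = J := by
    by_contra hc
    exact hα0 (hP1 α0 hc)
  have hJ : J ≤ r * p := by
    rw [← hJ0]
    exact deg_le α0
  have hB : ∑ α, P α * mon h α ≠ 0 := by
    intro h0
    have h1 : Pure M κ w (fun α => P α * η ^ (r * p - J)) := by
      intro α
      by_cases hα : deg α = J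
      · have h2 := hM.mul _ _ _ _ (hP α) (hM.pow hη (r * p - J))
        rw [hα]
        exact h2
      · simp only [hP1 α hα, zero_mul]
        exact zero_mem _
    have h2 : ∑ α, P α * η ^ (r * p - J) * mon h α = 0 := by
      have e : ∑ α, P α * η ^ (r * p - J) * mon h α =
          η ^ (r * p - J) * ∑ α, P α * mon h α := by
        rw [Finset.mul_sum]
        exact Finset.sum_congr rfl fun α _ => by ring
      rw [e, h0, mul_zero]
    have h3 := hI w _ h1 h2 α0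
    rcases mul_eq_zero.1 h3 with h4 | h4
    · exact hα0 h4
    · exact pow_ne_zero _ hη0 h4
  obtain ⟨m, hm, hm0, hmul⟩ := exists_mat hp hM hA P hP hP1
  have hζ : ∃ ζ ∈ M (w + J * κ), ζ ≠ 0 :=
    ⟨P α0 * η ^ J, hM.mul _ _ _ _ (hP α0) (hM.pow hη J), mul_ne_zero hα0 (pow_ne_zero _ hη0)⟩
  have hdet := det_ne hp hM hI hη hη0 hζ m hm hm0 _ hB hmul
  obtain ⟨Y, hY⟩ := det_eq_mul (by omega) m _ hmul
  by_contra hc
  push Not at hc
  apply hdet
  refine hM.sturm _ _ (det_mem hM m hm hm0) fun n hn => ?_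
  rw [hY, coeff_mul]
  refine Finset.sum_eq_zero fun x hx => ?_
  have h1 : x.1 ≤ n := by
    have := Finset.HasAntidiagonal.mem_antidiagonal.1 hx
    omega
  rw [hc x.1 (h1.trans hn), zero_mul]

end H22Z
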