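import Pool.Agent.Lib.H22Z.Z0

/-!
# H22Z, Z6A: the matrix of multiplication by `A(h)`
-/

namespace H22Z

open PowerSeries H94M H53M

variable {p : ℕ} [Fact p.Prime] {r : ℕ}

/-- `x` is a combination of the monomials `h^γ` of weight `w + D κ`. -/
def Rep (M : ℕ → Submodule (ZMod p) (PowerSeries (ZMod p))) (κ : ℕ)
    (h : Fin r → PowerSeries (ZMod p)) (w D : ℕ) (x : PowerSeries (ZMod p)) : Prop :=
  ∃ m : (Fin r → Fin p) → PowerSeries (ZMod p), (∀ γ, m γ ∈ M (w + (D - deg γ) * κ)) ∧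
    (∀ γ, D < deg γ → m γ = 0) ∧ x = ∑ γ, m γ * mon h γ

theorem Rep.zero {M : ℕ → Submodule (ZMod p) (PowerSeries (ZMod p))} {κ : ℕ}
    {h : Fin r → PowerSeries (ZMod p)} {w D : ℕ} : Rep M κ h w D 0 :=
  ⟨0, fun _ => zero_mem _, fun _ _ => rfl, by simp⟩

theorem Rep.add {M : ℕ → Submodule (ZMod p) (PowerSeries (ZMod p))} {κ : ℕ}
    {h : Fin r → PowerSeries (ZMod p)} {w D : ℕ} {x y : PowerSeries (ZMod p)}
    (hx : Rep M κ h w D x) (hy : Rep M κ h w D y) : Rep M κ h w D (x + y) := by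
  obtain ⟨m, h1, h2, h3⟩ := hx
  obtain ⟨m', h1', h2', h3'⟩ := hy
  refine ⟨fun γ => m γ + m' γ, fun γ => (M _).add_mem (h1 γ) (h1' γ), fun γ hγ => ?_, ?_⟩
  · simp only [h2 γ hγ, h2' γ hγ, add_zero]
  · rw [h3, h3', ← Finset.sum_add_distrib]
    exact Finset.sum_congr rfl fun γ _ => (add_mul _ _ _).symm

theorem Rep.sum {M : ℕ → Submodule (ZMod p) (PowerSeries (ZMod p))} {κ : ℕ}
    {h : Fin r → PowerSeries (ZMod p)} {w D : ℕ} {ι : Type*} (S : Finset ι)
    (x : ι → PowerSeries (ZMod p)) (hx : ∀ i ∈ S, Rep M κ h w D (x i)) :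
    Rep M κ h w D (∑ i ∈ S, x i) := by
  classical
  induction S using Finset.induction_on with
  | empty =>
    rw [Finset.sum_empty]
    exact Rep.zero
  | insert a S ha ih =>
    rw [Finset.sum_insert ha]
    exact (hx a (Finset.mem_insert_self _ _)).add
      (ih fun i hi => hx i (Finset.mem_insert_of_mem hi))

theorem Rep.mul {μ s₀ : ℕ} {M : ℕ → Submodule (ZMod p) (PowerSeries (ZMod p))}
    (hM : MFam p μ s₀ M) {κ : ℕ}
    {h : Fin r → PowerSeries (ZMod p)} {w w' D : ℕ} {x y : PowerSeries (ZMod p)} (hy : y ∈ M w')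
    (hx : Rep M κ h w D x) : Rep M κ h (w' + w) D (y * x) := by
  obtain ⟨m, h1, h2, h3⟩ := hx
  refine ⟨fun γ => y * m γ, fun γ => ?_, fun γ hγ => ?_, ?_⟩
  · rw [add_assoc]
    exact hM.mul _ _ _ _ hy (h1 γ)
  · simp only [h2 γ hγ, mul_zero]
  · rw [h3, Finset.mul_sum]
    exact Finset.sum_congr rfl fun γ _ => (mul_assoc _ _ _).symm

/-- A single monomial. -/
theorem Rep.single {M : ℕ → Submodule (ZMod p) (PowerSeries (ZMod p))} {κ : ℕ}
    {h : Fin r → PowerSeries (ZMod p)} {w D : ℕ} (γ : Fin r → Fin p) (hγ : deg γ ≤ D)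
    {y : PowerSeries (ZMod p)} (hy : y ∈ M (w + (D - deg γ) * κ)) :
    Rep M κ h w D (y * mon h γ) := by
  classical
  refine ⟨fun γ' => if γ' = γ then y else 0, fun γ' => ?_, fun γ' hγ' => ?_, ?_⟩
  · by_cases hc : γ' = γ
    · simp only [hc, if_true]
      exact hy
    · simp only [hc, if_false]
      exact zero_mem _
  · have hc : γ' ≠ γ := by
      intro h0
      rw [h0] at hγ'
      omega
    simp only [hc, if_false]
  · rw [Finset.sum_eq_single γ]
    · simp only [if_true]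
    · intro γ' _ hc
      simp only [hc, if_false, zero_mul]
    · intro h0
      exact absurd (Finset.mem_univ γ) h0

theorem mon_zero (hp : 0 < p) (h : Fin r → PowerSeries (ZMod p)) :
    mon h (fun _ => (⟨0, hp⟩ : Fin p)) = 1 := by
  unfold mon
  exact Finset.prod_eq_one fun s _ => pow_zero _

theorem Rep.one {μ s₀ : ℕ} {M : ℕ → Submodule (ZMod p) (PowerSeries (ZMod p))}
    (hp : 3 < p) (hM : MFam p μ s₀ M) {κ : ℕ} {h : Fin r → PowerSeries (ZMod p)} :
    Rep M κ h 0 0 1 := by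
  have h0 : 0 < p := by omega
  have hd : deg (fun _ : Fin r => (⟨0, h0⟩ : Fin p)) = 0 := Finset.sum_eq_zero fun s _ => rfl
  have h1 : (1 : PowerSeries (ZMod p)) ∈ M (0 + (0 - deg (fun _ : Fin r => (⟨0, h0⟩ : Fin p))) * κ) := by
    rw [hd]
    simp only [Nat.sub_zero, Nat.zero_mul, Nat.add_zero]
    have h2 := const_mem hM (1 : ZMod p)
    rwa [map_one] at h2
  have h2 := Rep.single (h := h) (M := M) (κ := κ) (w := 0) (D := 0) _ (le_of_eq hd) h1
  rwa [mon_zero, mul_one] at h2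

theorem mon_update (h : Fin r → PowerSeries (ZMod p)) (γ : Fin r → Fin p) (s : Fin r) (i : Fin p) :
    mon h (Function.update γ s i) = h s ^ (i : ℕ) * ∏ t ∈ Finset.univ.erase s, h t ^ (γ t : ℕ) := by
  unfold mon
  rw [← Finset.mul_prod_erase _ _ (Finset.mem_univ s), Function.update_self]
  congr 1
  refine Finset.prod_congr rfl fun t ht => ?_
  rw [Function.update_of_ne (Finset.ne_of_mem_erase ht)]

theorem deg_update (γ : Fin r → Fin p) (s : Fin r) (i : Fin p) :
    deg (Function.update γ s i) = i + ∑ t ∈ Finset.univ.erase s, (γ t : ℕ) := by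
  unfold deg
  rw [← Finset.add_sum_erase _ _ (Finset.mem_univ s), Function.update_self]
  congr 1
  refine Finset.sum_congr rfl fun t ht => ?_
  rw [Function.update_of_ne (Finset.ne_of_mem_erase ht)]

theorem Rep.mul_h {μ s₀ : ℕ} {M : ℕ → Submodule (ZMod p) (PowerSeries (ZMod p))} (hp : 3 < p)
    (hM : MFam p μ s₀ M) {κ : ℕ} {b : ZMod p} {h G : Fin r → PowerSeries (ZMod p)}
    (hA : AS M κ b h G) {w D : ℕ} {x : PowerSeries (ZMod p)} (hx : Rep M κ h w D x) (s : Fin r) :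
    Rep M κ h w (D + 1) (x * h s) := by
  obtain ⟨m, h1, h2, h3⟩ := hx
  rw [h3, Finset.sum_mul]
  refine Rep.sum _ _ fun γ _ => ?_
  by_cases hD : D < deg γ
  · rw [h2 γ hD, zero_mul, zero_mul]
    exact Rep.zero
  push Not at hD
  have hγ := h1 γ
  have hdeg : deg γ = γ s + ∑ t ∈ Finset.univ.erase s, (γ t : ℕ) := by
    unfold deg
    rw [← Finset.add_sum_erase _ _ (Finset.mem_univ s)]
  have hmon : mon h γ = h s ^ (γ s : ℕ) * ∏ t ∈ Finset.univ.erase s, h t ^ (γ t : ℕ) := by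
    unfold mon
    rw [← Finset.mul_prod_erase _ _ (Finset.mem_univ s)]
  by_cases hs : (γ s : ℕ) + 1 < p
  · have e : m γ * mon h γ * h s = m γ * mon h (Function.update γ s ⟨(γ s : ℕ) + 1, hs⟩) := by
      rw [mon_update, hmon]
      ring
    rw [e]
    have hd : deg (Function.update γ s ⟨(γ s : ℕ) + 1, hs⟩) = deg γ + 1 := by
      rw [deg_update, hdeg]
      simp only
      omega
    refine Rep.single _ (by omega) ?_
    rw [hd]
    have e2 : D + 1 - (deg γ + 1) = D - deg γ := by omega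
    rw [e2]
    exact hγ
  · have hs1 : (γ s : ℕ) + 1 = p := by
      have := (γ s).isLt
      omega
    have h1p : 1 < p := by omega
    have h0p : 0 < p := by omega
    have e : m γ * mon h γ * h s = (C b⁻¹ * m γ) * mon h (Function.update γ s ⟨1, h1p⟩) +
        (C (-b⁻¹) * (m γ * G s)) * mon h (Function.update γ s ⟨0, h0p⟩) := by
      rw [mon_update, mon_update, hmon]
      have e1 : h s ^ (γ s : ℕ) * h s = C b⁻¹ * (h s - G s) := by
        rw [← pow_succ, hs1, hA.pow_eq s]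
      simp only [pow_one, pow_zero, one_mul, map_neg]
      calc m γ * (h s ^ (γ s : ℕ) * ∏ t ∈ Finset.univ.erase s, h t ^ (γ t : ℕ)) * h s
          = m γ * (h s ^ (γ s : ℕ) * h s) * ∏ t ∈ Finset.univ.erase s, h t ^ (γ t : ℕ) := by ring
        _ = _ := by
          rw [e1]
          ring
    rw [e]
    obtain ⟨q, rfl⟩ : ∃ q, p = q + 1 := ⟨p - 1, by omega⟩
    have hq : q + 1 - 1 = q := by omega
    refine Rep.add (Rep.single _ ?_ ?_) (Rep.single _ ?_ ?_)
    · rw [deg_update]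
      simp only
      omega
    · refine fill hp hM (C_mul_mem hM _ hγ) κ ?_
      rw [deg_update, hq]
      simp only
      obtain ⟨y, hy⟩ : ∃ y, ∑ t ∈ Finset.univ.erase s, (γ t : ℕ) = y := ⟨_, rfl⟩
      rw [hy] at hdeg ⊢
      have e1 : D + 1 - (1 + y) = (D - deg γ) + q := by omega
      rw [e1]
      ring
    · rw [deg_update]
      simp only
      omega
    · refine fill hp hM (C_mul_mem hM _ (hM.mul _ _ _ _ hγ (hA.mem s))) κ ?_
      rw [deg_update, hq]
      simp only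
      obtain ⟨y, hy⟩ : ∃ y, ∑ t ∈ Finset.univ.erase s, (γ t : ℕ) = y := ⟨_, rfl⟩
      rw [hy] at hdeg ⊢
      have e1 : D + 1 - (0 + y) = (D - deg γ) + q + 1 := by omega
      rw [e1]
      ring

theorem Rep.mul_pow {μ s₀ : ℕ} {M : ℕ → Submodule (ZMod p) (PowerSeries (ZMod p))} (hp : 3 < p)
    (hM : MFam p μ s₀ M) {κ : ℕ} {b : ZMod p} {h G : Fin r → PowerSeries (ZMod p)}
    (hA : AS M κ b h G) {w D : ℕ} {x : PowerSeries (ZMod p)} (hx : Rep M κ h w D x) (s : Fin r)
    (n : ℕ) : Rep M κ h w (D + n) (x * h s ^ n) := by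
  induction n with
  | zero =>
    rw [pow_zero, mul_one, Nat.add_zero]
    exact hx
  | succ n ih =>
    have h1 := ih.mul_h hp hM hA s
    rw [pow_succ, ← mul_assoc]
    exact h1

theorem Rep.prod {μ s₀ : ℕ} {M : ℕ → Submodule (ZMod p) (PowerSeries (ZMod p))} (hp : 3 < p)
    (hM : MFam p μ s₀ M) {κ : ℕ} {b : ZMod p} {h G : Fin r → PowerSeries (ZMod p)}
    (hA : AS M κ b h G) (n : Fin r → ℕ) : Rep M κ h 0 (∑ s, n s) (∏ s, h s ^ n s) := by
  have h1 : ∀ S : Finset (Fin r), Rep M κ h 0 (∑ s ∈ S, n s) (∏ s ∈ S, h s ^ n s) := by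
    intro S
    induction S using Finset.induction_on with
    | empty =>
      rw [Finset.sum_empty, Finset.prod_empty]
      exact Rep.one hp hM
    | insert s S hs ih =>
      rw [Finset.prod_insert hs, Finset.sum_insert hs, mul_comm, add_comm]
      exact ih.mul_pow hp hM hA s (n s)
  exact h1 _

theorem Rep.mon_mul {μ s₀ : ℕ} {M : ℕ → Submodule (ZMod p) (PowerSeries (ZMod p))} (hp : 3 < p)
    (hM : MFam p μ s₀ M) {κ : ℕ} {b : ZMod p} {h G : Fin r → PowerSeries (ZMod p)}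
    (hA : AS M κ b h G) (α β : Fin r → Fin p) :
    Rep M κ h 0 (deg α + deg β) (mon h α * mon h β) := by
  have h1 := Rep.prod hp hM hA (fun s => (α s : ℕ) + (β s : ℕ))
  have e1 : ∑ s, ((α s : ℕ) + (β s : ℕ)) = deg α + deg β := Finset.sum_add_distrib
  have e2 : ∏ s, h s ^ ((α s : ℕ) + (β s : ℕ)) = mon h α * mon h β := by
    unfold mon
    rw [← Finset.prod_mul_distrib]
    exact Finset.prod_congr rfl fun s _ => pow_add _ _ _
  rw [e1, e2] at h1
  exact h1

/-- The matrix of multiplication by `A(h)`. -/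
theorem exists_mat {μ s₀ : ℕ} {M : ℕ → Submodule (ZMod p) (PowerSeries (ZMod p))} (hp : 3 < p)
    (hM : MFam p μ s₀ M) {κ : ℕ} {b : ZMod p} {h G : Fin r → PowerSeries (ZMod p)}
    (hA : AS M κ b h G) {J w : ℕ} (P : (Fin r → Fin p) → PowerSeries (ZMod p))
    (hP : ∀ α, P α ∈ M w) (hP1 : ∀ α, deg α ≠ J → P α = 0) :
    ∃ m : (Fin r → Fin p) → (Fin r → Fin p) → PowerSeries (ZMod p),
      (∀ β γ, m β γ ∈ M (w + (J + deg β - deg γ) * κ)) ∧
      (∀ β γ, J + deg β < deg γ → m β γ = 0) ∧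
      ∀ β, ∑ γ, m β γ * mon h γ = (∑ α, P α * mon h α) * mon h β := by
  have h1 : ∀ β, Rep M κ h w (J + deg β) ((∑ α, P α * mon h α) * mon h β) := by
    intro β
    rw [Finset.sum_mul]
    refine Rep.sum _ _ fun α _ => ?_
    by_cases hα : deg α = J
    · have h2 := (Rep.mon_mul hp hM hA α β).mul hM (hP α)
      rw [hα, Nat.add_zero] at h2
      rw [mul_assoc]
      exact h2
    · rw [hP1 α hα, zero_mul, zero_mul]
      exact Rep.zero
  choose m hm1 hm2 hm3 using h1
  exact ⟨m, hm1, hm2, fun β => (hm3 β).symm⟩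

theorem prod_mem {μ s₀ : ℕ} {M : ℕ → Submodule (ZMod p) (PowerSeries (ZMod p))}
    (hM : MFam p μ s₀ M) {ι : Type*} (S : Finset ι) (x : ι → PowerSeries (ZMod p)) (w : ι → ℕ)
    (hx : ∀ i ∈ S, x i ∈ M (w i)) : ∏ i ∈ S, x i ∈ M (∑ i ∈ S, w i) := by
  classical
  induction S using Finset.induction_on with
  | empty =>
    rw [Finset.prod_empty, Finset.sum_empty]
    have h2 := const_mem hM (1 : ZMod p)
    rwa [map_one] at h2
  | insert a S ha ih =>
    rw [Finset.prod_insert ha, Finset.sum_insert ha]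
    exact hM.mul _ _ _ _ (hx a (Finset.mem_insert_self _ _))
      (ih fun i hi => hx i (Finset.mem_insert_of_mem hi))

theorem det_mem {μ s₀ : ℕ} {M : ℕ → Submodule (ZMod p) (PowerSeries (ZMod p))}
    (hM : MFam p μ s₀ M) {κ : ℕ} {J w : ℕ}
    (m : (Fin r → Fin p) → (Fin r → Fin p) → PowerSeries (ZMod p))
    (hm : ∀ β γ, m β γ ∈ M (w + (J + deg β - deg γ) * κ))
    (hm0 : ∀ β γ, J + deg β < deg γ → m β γ = 0) :
    Matrix.det (Matrix.of m) ∈ M (p ^ r * (w + J * κ)) := by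
  rw [Matrix.det_apply]
  simp only [Matrix.of_apply]
  refine (M _).sum_mem fun σ _ => ?_
  have h1 : ∏ β, m (σ β) β ∈ M (p ^ r * (w + J * κ)) := by
    by_cases h0 : ∃ β, J + deg (σ β) < deg β
    · obtain ⟨β, hβ⟩ := h0
      have h2 : ∏ β, m (σ β) β = 0 :=
        Finset.prod_eq_zero (Finset.mem_univ β) (hm0 _ _ hβ)
      rw [h2]
      exact zero_mem _
    · push Not at h0
      have h2 := prod_mem hM Finset.univ (fun β => m (σ β) β)
        (fun β => w + (J + deg (σ β) - deg β) * κ) (fun β _ => hm _ _)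
      have e : ∑ β, (w + (J + deg (σ β) - deg β) * κ) = p ^ r * (w + J * κ) := by
        rw [Finset.sum_add_distrib, ← Finset.sum_mul, Finset.sum_tsub_distrib _ (fun β _ => h0 β),
          Finset.sum_add_distrib, Equiv.sum_comp σ deg]
        simp only [Finset.sum_const, Finset.card_univ, Fintype.card_fun, Fintype.card_fin,
          smul_eq_mul, Nat.add_sub_cancel]
        ring
      rw [e] at h2
      exact h2
  rcases Int.units_eq_one_or (Equiv.Perm.sign σ) with h | h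
  · rw [h, one_smul]
    exact h1
  · rw [h, Units.neg_smul, one_smul]
    exact (M _).neg_mem h1

/-- `det = A(h) * Y`. -/
theorem det_eq_mul (hp : 0 < p) {h : Fin r → PowerSeries (ZMod p)}
    (m : (Fin r → Fin p) → (Fin r → Fin p) → PowerSeries (ZMod p)) (B : PowerSeries (ZMod p))
    (hmul : ∀ β, ∑ γ, m β γ * mon h γ = B * mon h β) :
    ∃ Y, Matrix.det (Matrix.of m) = B * Y := by
  have h1 : Matrix.mulVec (Matrix.of m) (mon h) = B • mon h := by
    funext β
    exact hmul β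
  have h2 : Matrix.mulVec (Matrix.adjugate (Matrix.of m)) (Matrix.mulVec (Matrix.of m) (mon h)) =
      Matrix.det (Matrix.of m) • mon h := by
    rw [Matrix.mulVec_mulVec, Matrix.adjugate_mul, Matrix.smul_mulVec, Matrix.one_mulVec]
  rw [h1, Matrix.mulVec_smul] at h2
  refine ⟨Matrix.mulVec (Matrix.adjugate (Matrix.of m)) (mon h) (fun _ => (⟨0, hp⟩ : Fin p)), ?_⟩
  have h3 := congrFun h2 (fun _ => (⟨0, hp⟩ : Fin p))
  simp only [Pi.smul_apply, smul_eq_mul] at h3
  rw [mon_zero, mul_one] at h3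
  exact h3.symm

end H22Z
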