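import Pool.Agent.Lib.H22Z.Z6A

/-!
# H22Z, Z6B: the matrix of multiplication by `A(h)` is not singular
-/

namespace H22Z

open PowerSeries H94M H53M

variable {p : ℕ} [Fact p.Prime] {r : ℕ}

/-- The embedding of `𝔽_p[[q]]` into its field of fractions. -/
noncomputable abbrev Z6B_a (p : ℕ) [Fact p.Prime] :
    PowerSeries (ZMod p) →+* FractionRing (PowerSeries (ZMod p)) :=
  algebraMap (PowerSeries (ZMod p)) (FractionRing (PowerSeries (ZMod p)))

theorem Z6B_inj : Function.Injective (Z6B_a p) :=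
  IsFractionRing.injective (PowerSeries (ZMod p)) (FractionRing (PowerSeries (ZMod p)))

theorem Z6B_ne {x : PowerSeries (ZMod p)} (hx : x ≠ 0) : Z6B_a p x ≠ 0 := fun h =>
  hx (Z6B_inj (by rw [h, map_zero]))

/-- The quotients of modular forms of equal weight. -/
noncomputable def Z6B_K0 {μ s₀ : ℕ} {M : ℕ → Submodule (ZMod p) (PowerSeries (ZMod p))}
    (hM : MFam p μ s₀ M) : Subfield (FractionRing (PowerSeries (ZMod p))) where
  carrier := {y | ∃ (w : ℕ) (u v : PowerSeries (ZMod p)), u ∈ M w ∧ v ∈ M w ∧ v ≠ 0 ∧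
    y = Z6B_a p u / Z6B_a p v}
  mul_mem' := by
    rintro _ _ ⟨w, u, v, hu, hv, hv0, rfl⟩ ⟨w', u', v', hu', hv', hv0', rfl⟩
    exact ⟨w + w', u * u', v * v', hM.mul _ _ _ _ hu hu', hM.mul _ _ _ _ hv hv',
      mul_ne_zero hv0 hv0', by rw [map_mul, map_mul, div_mul_div_comm]⟩
  one_mem' := ⟨0, 1, 1, hM.le _ (one_mem_MP_zero p), hM.le _ (one_mem_MP_zero p), one_ne_zero,
    by rw [map_one, div_one]⟩
  add_mem' := by
    rintro _ _ ⟨w, u, v, hu, hv, hv0, rfl⟩ ⟨w', u', v', hu', hv', hv0', rfl⟩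
    refine ⟨w + w', u * v' + v * u', v * v', Submodule.add_mem _ (hM.mul _ _ _ _ hu hv')
      (hM.mul _ _ _ _ hv hu'), hM.mul _ _ _ _ hv hv', mul_ne_zero hv0 hv0', ?_⟩
    rw [map_add, map_mul, map_mul, map_mul, div_add_div _ _ (Z6B_ne hv0) (Z6B_ne hv0')]
  zero_mem' := ⟨0, 0, 1, zero_mem _, hM.le _ (one_mem_MP_zero p), one_ne_zero,
    by rw [map_zero, zero_div]⟩
  neg_mem' := by
    rintro _ ⟨w, u, v, hu, hv, hv0, rfl⟩
    exact ⟨w, -u, v, Submodule.neg_mem _ hu, hv, hv0, by rw [map_neg, neg_div]⟩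
  inv_mem' := by
    rintro _ ⟨w, u, v, hu, hv, hv0, rfl⟩
    by_cases h0 : u = 0
    · refine ⟨0, 0, 1, zero_mem _, hM.le _ (one_mem_MP_zero p), one_ne_zero, ?_⟩
      rw [h0, map_zero, zero_div, inv_zero, zero_div]
    · exact ⟨w, v, u, hv, hu, h0, by rw [inv_div]⟩

theorem det_ne {μ s₀ : ℕ} {M : ℕ → Submodule (ZMod p) (PowerSeries (ZMod p))} (hp : 3 < p)
    (hM : MFam p μ s₀ M) {κ : ℕ} {h : Fin r → PowerSeries (ZMod p)} (hI : Indep M κ h)
    {η : PowerSeries (ZMod p)} (hη : η ∈ M κ) (hη0 : η ≠ 0) {J w : ℕ}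
    (hw : ∃ ζ ∈ M (w + J * κ), ζ ≠ 0)
    (m : (Fin r → Fin p) → (Fin r → Fin p) → PowerSeries (ZMod p))
    (hm : ∀ β γ, m β γ ∈ M (w + (J + deg β - deg γ) * κ))
    (hm0 : ∀ β γ, J + deg β < deg γ → m β γ = 0)
    (B : PowerSeries (ZMod p)) (hB : B ≠ 0)
    (hmul : ∀ β, ∑ γ, m β γ * mon h γ = B * mon h β) :
    Matrix.det (Matrix.of m) ≠ 0 := by
  intro hdet
  obtain ⟨ζ, hζ, hζ0⟩ := hw
  have hxm : ∀ β γ, Z6B_a p (m β γ) * Z6B_a p η ^ deg γ / (Z6B_a p η ^ deg β * Z6B_a p ζ) ∈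
      Z6B_K0 hM := by
    intro β γ
    rcases lt_or_ge (J + deg β) (deg γ) with h1 | h1
    · rw [hm0 β γ h1, map_zero, zero_mul, zero_div]
      exact zero_mem _
    · refine ⟨w + (J + deg β) * κ, m β γ * η ^ deg γ, η ^ deg β * ζ, ?_, ?_,
        mul_ne_zero (pow_ne_zero _ hη0) hζ0, ?_⟩
      · have h2 := hM.mul _ _ _ _ (hm β γ) (hM.pow hη (deg γ))
        have e : w + (J + deg β - deg γ) * κ + deg γ * κ = w + (J + deg β) * κ := by
          rw [add_assoc, ← add_mul]
          congr 2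
          omega
        rwa [e] at h2
      · have h2 := hM.mul _ _ _ _ (hM.pow hη (deg β)) hζ
        have e : deg β * κ + (w + J * κ) = w + (J + deg β) * κ := by ring
        rwa [e] at h2
      · rw [map_mul, map_mul, map_pow, map_pow]
  set X0 : Matrix (Fin r → Fin p) (Fin r → Fin p) (Z6B_K0 hM) :=
    Matrix.of fun β γ => ⟨_, hxm β γ⟩ with hX0
  have hdX : X0.det = 0 := by
    have h1 : (Z6B_K0 hM).subtype X0.det = 0 := by
      rw [RingHom.map_det]
      have h2 : (Z6B_K0 hM).subtype.mapMatrix X0 =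
          Matrix.diagonal (fun β => (Z6B_a p η ^ deg β * Z6B_a p ζ)⁻¹) *
            (Z6B_a p).mapMatrix (Matrix.of m) *
              Matrix.diagonal (fun γ => Z6B_a p η ^ deg γ) := by
        ext β γ
        rw [Matrix.mul_diagonal, Matrix.diagonal_mul]
        simp only [RingHom.mapMatrix_apply, Matrix.map_apply, hX0, Matrix.of_apply,
          Subfield.coe_subtype]
        rw [div_eq_mul_inv]
        ring
      rw [h2, Matrix.det_mul, Matrix.det_mul, ← RingHom.map_det, hdet, map_zero, mul_zero,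
        zero_mul]
    exact (Z6B_K0 hM).subtype_injective (by rw [h1, map_zero])
  obtain ⟨v, hv0, hv⟩ := Matrix.exists_vecMul_eq_zero_iff.2 hdX
  -- common denominator
  have hvm : ∀ β, ∃ (w' : ℕ) (u d : PowerSeries (ZMod p)), u ∈ M w' ∧ d ∈ M w' ∧ d ≠ 0 ∧
      ((v β : Z6B_K0 hM) : FractionRing (PowerSeries (ZMod p))) = Z6B_a p u / Z6B_a p d :=
    fun β => (v β).2
  choose W u d hu hd hd0 hvd using hvm
  set D : PowerSeries (ZMod p) := ∏ β, d β with hD
  have hD0 : D ≠ 0 := Finset.prod_ne_zero_iff.2 fun β _ => hd0 β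
  have hprod : ∀ S : Finset (Fin r → Fin p), ∏ β ∈ S, d β ∈ M (∑ β ∈ S, W β) := by
    classical
    intro S
    induction S using Finset.induction_on with
    | empty =>
      rw [Finset.prod_empty, Finset.sum_empty]
      exact hM.le _ (one_mem_MP_zero p)
    | insert a S ha ih =>
      rw [Finset.prod_insert ha, Finset.sum_insert ha]
      exact hM.mul _ _ _ _ (hd a) ih
  classical
  set u' : (Fin r → Fin p) → PowerSeries (ZMod p) :=
    fun β => u β * ∏ γ ∈ Finset.univ.erase β, d γ with hu'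
  set V : ℕ := ∑ β, W β with hV
  have hu'm : ∀ β, u' β ∈ M V := by
    intro β
    have h1 := hM.mul _ _ _ _ (hu β) (hprod (Finset.univ.erase β))
    rwa [Finset.add_sum_erase _ _ (Finset.mem_univ β)] at h1
  have hvu : ∀ β, ((v β : Z6B_K0 hM) : FractionRing (PowerSeries (ZMod p))) =
      Z6B_a p (u' β) / Z6B_a p D := by
    intro β
    rw [hvd β, div_eq_div_iff (Z6B_ne (hd0 β)) (Z6B_ne hD0), ← map_mul, ← map_mul]
    congr 1
    rw [hD, ← Finset.mul_prod_erase _ _ (Finset.mem_univ β), hu']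
    ring
  have hηa := Z6B_ne hη0
  have hζa := Z6B_ne hζ0
  have hDa := Z6B_ne hD0
  have hker : ∀ γ, ∑ β, u' β * η ^ (r * p - deg β) * m β γ = 0 := by
    intro γ
    have h1 := congrFun hv γ
    have h2 : ((Matrix.vecMul v X0 γ : Z6B_K0 hM) : FractionRing (PowerSeries (ZMod p))) = 0 := by
      rw [h1]
      rfl
    have h3 : ((Matrix.vecMul v X0 γ : Z6B_K0 hM) : FractionRing (PowerSeries (ZMod p))) =
        ∑ β, Z6B_a p (u' β) / Z6B_a p D * (Z6B_a p (m β γ) * Z6B_a p η ^ deg γ /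
          (Z6B_a p η ^ deg β * Z6B_a p ζ)) := by
      have h4 : ((Matrix.vecMul v X0 γ : Z6B_K0 hM) : FractionRing (PowerSeries (ZMod p))) =
          (Z6B_K0 hM).subtype (∑ β, v β * X0 β γ) := rfl
      rw [h4, map_sum]
      refine Finset.sum_congr rfl fun β _ => ?_
      rw [map_mul, ← hvu β]
      rfl
    rw [h3] at h2
    apply Z6B_inj
    rw [map_sum, map_zero]
    have h5 : ∑ β, Z6B_a p (u' β * η ^ (r * p - deg β) * m β γ) =
        Z6B_a p D * Z6B_a p ζ * Z6B_a p η ^ (r * p) * (Z6B_a p η ^ deg γ)⁻¹ *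
          ∑ β, Z6B_a p (u' β) / Z6B_a p D * (Z6B_a p (m β γ) * Z6B_a p η ^ deg γ /
            (Z6B_a p η ^ deg β * Z6B_a p ζ)) := by
      rw [Finset.mul_sum]
      refine Finset.sum_congr rfl fun β _ => ?_
      have h6 : Z6B_a p η ^ (r * p) = Z6B_a p η ^ (r * p - deg β) * Z6B_a p η ^ deg β := by
        rw [← pow_add]
        congr 1
        have := deg_le β
        omega
      rw [map_mul, map_mul, map_pow, h6]
      have h7 := pow_ne_zero (deg β) hηa
      have h8 := pow_ne_zero (deg γ) hηa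
      field_simp
    rw [h5, h2, mul_zero]
  have hpure : Pure M κ V (fun β => u' β * η ^ (r * p - deg β)) := fun β =>
    hM.mul _ _ _ _ (hu'm β) (hM.pow hη _)
  have hsum : ∑ β, u' β * η ^ (r * p - deg β) * mon h β = 0 := by
    have h1 : B * ∑ β, u' β * η ^ (r * p - deg β) * mon h β = 0 := by
      calc B * ∑ β, u' β * η ^ (r * p - deg β) * mon h β
          = ∑ β, u' β * η ^ (r * p - deg β) * (B * mon h β) := by
            rw [Finset.mul_sum]
            exact Finset.sum_congr rfl fun β _ => by ring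
        _ = ∑ β, u' β * η ^ (r * p - deg β) * ∑ γ, m β γ * mon h γ := by
            exact Finset.sum_congr rfl fun β _ => by rw [hmul β]
        _ = ∑ γ, (∑ β, u' β * η ^ (r * p - deg β) * m β γ) * mon h γ := by
            simp only [Finset.mul_sum, Finset.sum_mul]
            rw [Finset.sum_comm]
            exact Finset.sum_congr rfl fun γ _ => Finset.sum_congr rfl fun β _ => by ring
        _ = 0 := by
            exact Finset.sum_eq_zero fun γ _ => by rw [hker γ, zero_mul]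
    exact (mul_eq_zero.1 h1).resolve_left hB
  have hz := hI V _ hpure hsum
  apply hv0
  funext β
  have h1 : u' β = 0 := (mul_eq_zero.1 (hz β)).resolve_right (pow_ne_zero _ hη0)
  apply Subtype.ext
  rw [hvu β, h1, map_zero, zero_div]
  rfl

end H22Z
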