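import Pool.Agent.Lib.H22Z.Z5
import Pool.Agent.Lib.H22Z.Z6
import Pool.Agent.Lib.H94D.M5
import Pool.Agent.Lib.H94D.G2

/-!
# H22Z, Z7: the zero estimate for the auxiliary function of Theorem D
-/

namespace H22Z

open PowerSeries H94M H53M H36D H6D H94D

/-- `∑_i x_i Δ^i E₄^(3(W-i))` is not zero modulo `p` if some `x_i` is not. -/
theorem comb_ne {p : ℕ} [Fact p.Prime] (W : ℕ) (x : ℕ → ℤ)
    (hx : ∃ i, i ≤ W ∧ ¬ (p : ℤ) ∣ x i) :
    ∑ i ∈ Finset.range (W + 1), (x i : ZMod p) • redZ p (Lv W i) ≠ 0 := by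
  classical
  obtain ⟨i0, ⟨hi0W, hi0⟩, hmin⟩ : ∃ i0, (i0 ≤ W ∧ ¬ (p : ℤ) ∣ x i0) ∧
      ∀ i < i0, ¬ (i ≤ W ∧ ¬ (p : ℤ) ∣ x i) :=
    ⟨Nat.find hx, Nat.find_spec hx, fun i hi => Nat.find_min hx hi⟩
  obtain ⟨u, hu, hdl⟩ := dl_factor
  intro h0
  have h1 := congrArg (coeff i0) h0
  rw [map_zero, map_sum] at h1
  have hterm : ∀ i, i0 ≤ i → coeff i0 (redZ p (Lv W i)) = if i = i0 then 1 else 0 := by
    intro i hi
    have e1 : Lv W i = X ^ i * (u ^ i * e4 ^ (3 * (W - i))) := by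
      unfold Lv
      rw [hdl, mul_pow, mul_assoc]
    rw [coeff_map, e1, coeff_X_pow_mul']
    split_ifs with h2 h3 h3
    · have h4 : i0 - i = 0 := by omega
      have h5 : constantCoeff e4 = 1 := by
        rw [← coeff_zero_eq_constantCoeff_apply]
        unfold e4
        rw [coeff_mk, if_pos rfl]
      rw [h4, coeff_zero_eq_constantCoeff_apply, map_mul, map_pow, map_pow, hu, h5, one_pow,
        one_pow, mul_one, map_one]
    · omega
    · omega
    · rw [map_zero]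
  rw [Finset.sum_eq_single i0] at h1
  · rw [coeff_smul, hterm i0 le_rfl, if_pos rfl, smul_eq_mul, mul_one,
      ZMod.intCast_zmod_eq_zero_iff_dvd] at h1
    exact hi0 h1
  · intro i hi hne
    rw [coeff_smul]
    by_cases h2 : i < i0
    · have h3 := hmin i h2
      have h4 : (p : ℤ) ∣ x i := by
        by_contra hc
        exact h3 ⟨by omega, hc⟩
      rw [(ZMod.intCast_zmod_eq_zero_iff_dvd _ _).2 h4, zero_smul]
    · rw [hterm i (by omega), if_neg hne, smul_zero]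
  · intro h2
    exact absurd (Finset.mem_range.2 (by omega)) h2

theorem PI_Ah {p : ℕ} [Fact p.Prime] {r : ℕ} {h : Fin r → PowerSeries ℚ} (hI : ∀ s, PI p (h s))
    (W : ℕ) (t : (Fin r → ℕ) × ℕ) : PI p (toQ (Lv W t.2) * Hm h t.1) :=
  PI_mul (PI_toQ _) (PI_Hm hI _)

theorem redQ_Ah {p : ℕ} [Fact p.Prime] {r : ℕ} {h : Fin r → PowerSeries ℚ} (hI : ∀ s, PI p (h s))
    (J W : ℕ) (x : (Fin r → ℕ) × ℕ → ℤ) :
    redQ p (Ah h J W x) = ∑ t ∈ Ix r J W, (x t : ZMod p) •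
      (redZ p (Lv W t.2) * Hm (fun s => redQ p (h s)) t.1) := by
  unfold Ah
  rw [kredQ_sum _ _ fun t _ => PI_smul (by exact_mod_cast pi_int (x t)) (PI_Ah hI W t)]
  refine Finset.sum_congr rfl fun t _ => ?_
  rw [kredQ_smul (by exact_mod_cast pi_int (x t)) (PI_Ah hI W t),
    kredQ_mul (PI_toQ _) (PI_Hm hI _), kredQ_toQ, redQ_Hm hI]
  norm_num

/-- The coefficients `P_α`. -/
noncomputable def PP (p : ℕ) {r : ℕ} (J W : ℕ) (x : (Fin r → ℕ) × ℕ → ℤ) (α : Fin r → Fin p) :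
    PowerSeries (ZMod p) :=
  if deg α = J then
    ∑ i ∈ Finset.range (W + 1), (x (fun s => (α s : ℕ), i) : ZMod p) • redZ p (Lv W i) else 0

theorem sum_PP {p : ℕ} [Fact p.Prime] {r : ℕ} (hb : Fin r → PowerSeries (ZMod p)) {J : ℕ}
    (hJ : J < p) (W : ℕ) (x : (Fin r → ℕ) × ℕ → ℤ) :
    ∑ t ∈ Ix r J W, (x t : ZMod p) • (redZ p (Lv W t.2) * Hm hb t.1) =
      ∑ α, PP p J W x α * mon hb α := by
  classical
  unfold Ix
  rw [Finset.sum_product]
  have h1 : ∑ α, PP p J W x α * mon hb α =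
      ∑ α ∈ Finset.univ.filter (fun α : Fin r → Fin p => deg α = J), PP p J W x α * mon hb α := by
    rw [Finset.sum_filter]
    refine Finset.sum_congr rfl fun α _ => ?_
    split_ifs with h2
    · rfl
    · unfold PP
      rw [if_neg h2, zero_mul]
  rw [h1]
  symm
  refine Finset.sum_bij (fun α _ => fun s => (α s : ℕ)) ?_ ?_ ?_ ?_
  · intro α hα
    rw [Finset.mem_filter] at hα
    rw [Finset.mem_piAntidiag]
    exact ⟨hα.2, fun s _ => Finset.mem_univ s⟩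
  · intro α _ α' _ h2
    funext s
    exact Fin.ext (congrFun h2 s)
  · intro g hg
    rw [Finset.mem_piAntidiag] at hg
    have h2 : ∀ s, g s < p := by
      intro s
      have h3 : g s ≤ ∑ t, g t := Finset.single_le_sum (fun _ _ => Nat.zero_le _) (Finset.mem_univ s)
      have h4 : ∑ t, g t = J := hg.1
      omega
    refine ⟨fun s => ⟨g s, h2 s⟩, ?_, rfl⟩
    rw [Finset.mem_filter]
    exact ⟨Finset.mem_univ _, hg.1⟩
  · intro α hα
    rw [Finset.mem_filter] at hα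
    unfold PP
    rw [if_pos hα.2, Finset.sum_mul]
    refine Finset.sum_congr rfl fun i _ => ?_
    rw [smul_mul_assoc]
    rfl

theorem PP_mem {p : ℕ} [Fact p.Prime] {μ s₀ : ℕ}
    {M : ℕ → Submodule (ZMod p) (PowerSeries (ZMod p))} (hM : MFam p μ s₀ M) {r : ℕ} (J W : ℕ)
    (x : (Fin r → ℕ) × ℕ → ℤ) (α : Fin r → Fin p) : PP p J W x α ∈ M (12 * W) := by
  unfold PP
  split_ifs
  · refine (M _).sum_mem fun i hi => (M _).smul_mem _ (Lv_mem hM ?_)
    have := Finset.mem_range.1 hi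
    omega
  · exact zero_mem _

/-- The zero estimate for the auxiliary function. -/
theorem zero_Ah {r v μ s₀ : ℕ} {h : Fin r → PowerSeries ℚ} {b : ℕ → ℤ} {Exc : ℕ → Prop}
    (hr : 1 ≤ r) (hD : Dat r v μ s₀ h b Exc) (p : ℕ) [Fact p.Prime] (hp : ¬ Exc p)
    (hb : (b p : ZMod p) ≠ 0)
    (hQ : ∀ Q : MvPolynomial (Fin r ⊕ Fin 2) (ZMod p),
      Q.totalDegree ≤ 3 * WW μ (v + 2) + 24 * μ →
        MvPolynomial.aeval (Sum.elim (fun σ => redQ p (h σ)) ![redZ p dl, redZ p e4]) Q = 0 →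
          Q = 0)
    (W : ℕ) (x : (Fin r → ℕ) × ℕ → ℤ) (hx : ∃ t ∈ Ix r (p - 1) W, ¬ (p : ℤ) ∣ x t) :
    ∃ n, n ≤ μ * (p ^ r * (12 * W + (p - 1) * (p * v + (p - 1)))) / 12 + s₀ ∧
      ((coeff n (Ah h (p - 1) W x) : ℚ) : ZMod p) ≠ 0 := by
  have hpp : p.Prime := Fact.out
  have hp5 : 5 < p := hD.big p hpp hp
  have hp3 : 3 < p := by omega
  obtain ⟨M, hM, hG⟩ := hD.fam p hp
  have hI : ∀ σ, PI p (h σ) := fun σ n => hD.int σ n p hpp hp
  have hκ : p * v + (p - 1) = (v + 2 - 2) * p + (p - 1) := by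
    rw [Nat.add_sub_cancel, mul_comm]
  obtain ⟨G, hGdef⟩ : ∃ G : Fin r → PowerSeries (ZMod p), G = fun σ => redQ p (h σ) -
      (b p : ZMod p) • VV p (redQ p (h σ)) := ⟨_, rfl⟩
  have hA : AS M ((v + 2 - 2) * p + (p - 1)) (b p : ZMod p) (fun σ => redQ p (h σ)) G := by
    refine ⟨hb, fun σ => ?_, fun σ => ?_⟩
    · rw [← hκ, hGdef]
      exact hG σ
    · rw [hGdef]
      simp only
      rw [VV_eq p hpp.ne_zero, expand_eq_pow, smul_eq_C_mul]
      ring
  have hInd := indep_of_alg hp3 hM hA hQ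
  have hη : ∃ σ, G σ ≠ 0 := by
    by_contra hc
    push Not at hc
    have h1 := hA.eq ⟨0, hr⟩
    rw [hc, add_zero] at h1
    obtain ⟨t, ht, _⟩ := const_of_pow_b (b := (b p : ZMod p)) (v := 1)
      (θ := redQ p (h ⟨0, hr⟩)) one_ne_zero (by rw [one_pow, one_mul]; exact h1)
    have h2 := hQ (MvPolynomial.X (Sum.inl ⟨0, hr⟩) - MvPolynomial.C t) ?_ ?_
    · have h3 := congrArg (MvPolynomial.coeff (Finsupp.single (Sum.inl ⟨0, hr⟩) 1)) h2
      rw [MvPolynomial.coeff_sub, MvPolynomial.coeff_X, if_pos rfl, MvPolynomial.coeff_C, if_neg,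
        MvPolynomial.coeff_zero, sub_zero] at h3
      · exact one_ne_zero h3
      · intro h4
        have h5 := DFunLike.congr_fun h4 (Sum.inl ⟨0, hr⟩)
        simp at h5
    · refine (MvPolynomial.totalDegree_sub _ _).trans ?_
      rw [MvPolynomial.totalDegree_X, MvPolynomial.totalDegree_C]
      have : 1 ≤ WW μ (v + 2) := by
        unfold WW
        exact Nat.one_le_iff_ne_zero.2 (by positivity)
      simp only [Nat.max_zero]
      omega
    · rw [map_sub, MvPolynomial.aeval_X, MvPolynomial.aeval_C]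
      simp only [Sum.elim_inl]
      rw [ht, mul_one]
      exact sub_self _
  obtain ⟨σ, hσ⟩ := hη
  obtain ⟨⟨g, i⟩, ht, hxt⟩ := hx
  have hgs : ∀ s, g s < p := by
    intro s
    unfold Ix at ht
    rw [Finset.mem_product, Finset.mem_piAntidiag] at ht
    have h3 : g s ≤ ∑ t, g t := Finset.single_le_sum (fun _ _ => Nat.zero_le _) (Finset.mem_univ s)
    have h4 : ∑ t, g t = p - 1 := ht.1.1
    omega
  have hP0 : PP p (p - 1) W x (fun s => ⟨g s, hgs s⟩) ≠ 0 := by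
    unfold Ix at ht
    rw [Finset.mem_product, Finset.mem_piAntidiag, Finset.mem_range] at ht
    unfold PP
    rw [if_pos]
    · exact comb_ne W (fun i => x (g, i)) ⟨i, by have := ht.2; simp only at this; omega, hxt⟩
    · exact ht.1.1
  obtain ⟨n, hn, hn2⟩ := zero_est hp3 hM hA hInd (hA.mem σ) hσ (J := p - 1) (w := 12 * W)
    (PP p (p - 1) W x) (PP_mem hM (p - 1) W x)
    (fun α hα => by unfold PP; rw [if_neg hα]) ⟨_, hP0⟩
  refine ⟨n, ?_, ?_⟩
  · rw [hκ]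
    exact hn
  · rw [← sum_PP (fun σ => redQ p (h σ)) (by omega), ← redQ_Ah hI] at hn2
    rwa [coeff_redQ] at hn2

end H22Z
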